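import Mathlib

/-!
Bounded differences inequality and the variance of a sum on a finite box.
-/

namespace Pool.Agent.Lib.MP_4ca2df_co

open Finset Fintype

theorem sum_cons' {n : ℕ} (S : Fin (n + 1) → Finset ℕ) (F : (Fin (n + 1) → ℕ) → ℝ) :
    ∑ c ∈ piFinset S, F c = ∑ a ∈ S 0, ∑ c ∈ piFinset (Fin.tail S), F (Fin.cons a c) := by
  rw [← sum_product' (f := fun a c => F (Fin.cons a c))]
  refine sum_nbij' (fun c => (c 0, Fin.tail c)) (fun p => Fin.cons p.1 p.2) (fun c hc => ?_)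
    (fun p hp => ?_) (fun c _ => by simp) (fun p _ => by simp) (fun c _ => by simp)
  · exact mem_product.2 (Fin.mem_piFinset_iff_zero_tail.1 hc)
  · exact Fin.mem_piFinset_iff_zero_tail.2 (by simpa using mem_product.1 hp)

theorem card_cons' {n : ℕ} (S : Fin (n + 1) → Finset ℕ) :
    ((piFinset S).card : ℝ) = (S 0).card * (piFinset (Fin.tail S)).card := by
  simpa using sum_cons' S fun _ => 1

theorem mgf (d t : ℝ) (h : |t| * d ≤ 1) (n : ℕ) : ∀ (S : Fin n → Finset ℕ), (∀ i, (S i).Nonempty) →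
    ∀ (f : (Fin n → ℕ) → ℝ) (M : ℝ), (∀ c ∈ piFinset S, ∀ i, ∀ a ∈ S i,
      |f (Function.update c i a) - f c| ≤ d) → ∑ c ∈ piFinset S, f c = M * (piFinset S).card →
    ∑ c ∈ piFinset S, Real.exp (t * (f c - M)) ≤ (piFinset S).card * Real.exp (n * (t * d) ^ 2) := by
  induction n with
  | zero =>
    intro S _ f M _ h2
    simp only [piFinset_of_isEmpty, univ_unique, sum_singleton, card_singleton, Nat.cast_one,
      mul_one] at h2 ⊢
    simp [h2]
  | succ n ih =>
    intro S hS f M h1 h2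
    obtain ⟨N, hN⟩ : ∃ N : ℝ, N = (piFinset (Fin.tail S)).card := ⟨_, rfl⟩
    have N0 : 0 < N := by
      rw [hN]
      exact Nat.cast_pos.2 (card_pos.2 (piFinset_nonempty.2 fun i => hS _))
    have S0 : (0 : ℝ) < (S 0).card := Nat.cast_pos.2 (card_pos.2 (hS 0))
    obtain ⟨g, hg⟩ : ∃ g : ℕ → ℝ, ∀ a, ∑ c ∈ piFinset (Fin.tail S), f (Fin.cons a c) = g a * N :=
      ⟨fun a => (∑ c ∈ piFinset (Fin.tail S), f (Fin.cons a c)) / N, fun a => by field_simp⟩
    have mem : ∀ a ∈ S 0, ∀ c ∈ piFinset (Fin.tail S), (Fin.cons a c : Fin (n + 1) → ℕ) ∈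
      piFinset S := fun a ha c hc => Fin.mem_piFinset_iff_zero_tail.2 ⟨ha, hc⟩
    have g1 : ∑ a ∈ S 0, g a = M * (S 0).card := by
      rw [sum_cons', card_cons', ← hN, sum_congr rfl fun a _ => hg a, ← sum_mul, ← mul_assoc] at h2
      exact mul_right_cancel₀ N0.ne' h2
    have g2 : ∀ a ∈ S 0, ∀ a' ∈ S 0, |g a - g a'| ≤ d := fun a ha a' ha' => by
      refine le_of_mul_le_mul_right ?_ N0
      rw [← abs_of_pos N0, ← abs_mul, abs_of_pos N0, sub_mul, ← hg, ← hg, ← sum_sub_distrib]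
      refine (abs_sum_le_sum_abs _ _).trans ((sum_le_card_nsmul _ _ d fun c hc => ?_).trans
        (by rw [nsmul_eq_mul, ← hN, mul_comm]))
      simpa using h1 _ (mem a' ha' c hc) 0 a ha
    have g3 : ∀ a ∈ S 0, |g a - M| ≤ d := fun a ha => by
      refine le_of_mul_le_mul_right ?_ S0
      rw [← abs_of_pos S0, ← abs_mul, abs_of_pos S0, sub_mul, ← g1, mul_comm, ← nsmul_eq_mul,
        ← sum_const, ← sum_sub_distrib]
      exact (abs_sum_le_sum_abs _ _).trans ((sum_le_card_nsmul _ _ d fun c hc => g2 a ha c hc).trans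
        (by rw [nsmul_eq_mul, mul_comm]))
    have g4 : ∀ a ∈ S 0, ∑ c ∈ piFinset (Fin.tail S), Real.exp (t * (f (Fin.cons a c) - M))
        ≤ N * Real.exp (n * (t * d) ^ 2) * (1 + (t * d) ^ 2 + t * (g a - M)) := fun a ha => by
      have a1 := ih (Fin.tail S) (fun i => hS _) (fun c => f (Fin.cons a c)) (g a)
        (fun c hc i b hb => by
          simpa [Fin.cons_update] using h1 _ (mem a ha c hc) i.succ b hb) (hN ▸ hg a)
      have a2 : |t * (g a - M)| ≤ |t| * d := by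
        rw [abs_mul]
        exact mul_le_mul_of_nonneg_left (g3 a ha) (abs_nonneg _)
      have a3 := (abs_le.1 (Real.abs_exp_sub_one_sub_id_le (a2.trans h))).2
      have a4 : (t * (g a - M)) ^ 2 ≤ (t * d) ^ 2 := by
        have := pow_le_pow_left₀ (abs_nonneg _) a2 2
        rwa [sq_abs, mul_pow |t|, sq_abs, ← mul_pow] at this
      rw [← hN] at a1
      refine le_trans (le_of_eq ?_) (mul_le_mul a1 (by linarith : Real.exp (t * (g a - M)) ≤ _)
        (Real.exp_pos _).le (by positivity))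
      rw [sum_mul]
      exact sum_congr rfl fun c _ => by rw [← Real.exp_add]; congr 1; ring
    rw [sum_cons', card_cons', ← hN]
    refine (sum_le_sum g4).trans ?_
    rw [← mul_sum, sum_add_distrib, ← mul_sum, sum_sub_distrib, g1, sum_const, sum_const,
      nsmul_eq_mul, nsmul_eq_mul, Nat.cast_succ, add_mul (n : ℝ), Real.exp_add, one_mul]
    have := mul_le_mul_of_nonneg_left (Real.add_one_le_exp ((t * d) ^ 2))
      (by positivity : 0 ≤ (S 0).card * N * Real.exp (n * (t * d) ^ 2))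
    linarith

theorem tail_le (d t u : ℝ) (ht : 0 ≤ t) (h : t * d ≤ 1) (n : ℕ) (S : Fin n → Finset ℕ)
    (hS : ∀ i, (S i).Nonempty) (f : (Fin n → ℕ) → ℝ) (M : ℝ) (h1 : ∀ c ∈ piFinset S, ∀ i, ∀ a ∈ S i,
      |f (Function.update c i a) - f c| ≤ d) (h2 : ∑ c ∈ piFinset S, f c = M * (piFinset S).card) :
    ∑ c ∈ piFinset S, (if |f c - M| ≤ u then (0 : ℝ) else 1)
      ≤ 2 * (piFinset S).card * Real.exp (n * (t * d) ^ 2 - t * u) := by
  have a1 := mgf d t (by rwa [abs_of_nonneg ht]) n S hS f M h1 h2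
  have a2 := mgf d (-t) (by rwa [abs_neg, abs_of_nonneg ht]) n S hS f M h1 h2
  rw [neg_mul, neg_sq] at a2
  rw [Real.exp_sub, mul_div_assoc', le_div_iff₀ (Real.exp_pos _), sum_mul]
  refine le_trans ?_ ((add_le_add a1 a2).trans (le_of_eq (by ring)))
  rw [← sum_add_distrib]
  refine sum_le_sum fun c _ => ?_
  split_ifs with c1
  · rw [zero_mul]; positivity
  · rw [one_mul]
    rcases le_abs.1 (not_le.1 c1).le with c2 | c2
    · exact le_add_of_le_of_nonneg (Real.exp_le_exp.2 (by nlinarith)) (Real.exp_pos _).le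
    · exact le_add_of_nonneg_of_le (Real.exp_pos _).le (Real.exp_le_exp.2 (by nlinarith))

theorem var_sum (n : ℕ) : ∀ (S : Fin n → Finset ℕ) (h : Fin n → ℕ → ℝ) (v : Fin n → ℝ),
    (∀ i, ∑ a ∈ S i, h i a = 0) → (∀ i, v i * (S i).card ≤ ∑ a ∈ S i, h i a ^ 2) →
    (∑ i, v i) * (piFinset S).card ≤ ∑ c ∈ piFinset S, (∑ i, h i (c i)) ^ 2 := by
  induction n with
  | zero => intros; simp
  | succ n ih =>
    intro S h v h1 h2
    have a1 := ih (Fin.tail S) (Fin.tail h) (Fin.tail v) (fun i => h1 _) (fun i => h2 _)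
    rw [sum_cons', card_cons', sum_comm, Fin.sum_univ_succ]
    simp only [Fin.sum_univ_succ, Fin.cons_zero, Fin.cons_succ, add_sq, sum_add_distrib, ← sum_mul,
      ← mul_sum, h1 0, sum_const, nsmul_eq_mul]
    have a2 := mul_le_mul_of_nonneg_left a1 (Nat.cast_nonneg (α := ℝ) (S 0).card)
    have a3 := mul_le_mul_of_nonneg_left (h2 0)
      (Nat.cast_nonneg (α := ℝ) (piFinset (Fin.tail S)).card)
    simp only [Fin.tail] at a2
    linarith

theorem sum_lin (x : ℝ) (k : ℕ) : ∑ a ∈ range k, (x - 2 * a) = k * x - k * (k - 1) := by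
  induction k with
  | zero => simp
  | succ k ih => rw [sum_range_succ, ih]; push_cast; ring

theorem sum_sq' (x : ℝ) (k : ℕ) : ∑ a ∈ range k, (x - 2 * a) ^ 2
    = k * x ^ 2 - 2 * x * k * (k - 1) + 2 * (k - 1) * k * (2 * k - 1) / 3 := by
  induction k with
  | zero => simp
  | succ k ih => rw [sum_range_succ, ih]; push_cast; ring

end Pool.Agent.Lib.MP_4ca2df_co
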