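import Pool.Agent.Lib.MP_4ca2df_co.H26Cover

/-!
The abstract almost-decomposition theorem.
-/

namespace Pool.Agent.Lib.MP_4ca2df_co

open Finset
open scoped Classical

variable {V : Type*} [Fintype V]

omit [Fintype V] in
theorem family [DecidableEq V] (lev : V → ℕ) (ω : V → V → ℝ) (l t : ℕ) (I : Finset V) (lo : V → ℕ) (p : V → ℕ → V)
    (h : Sys lev ω l t I lo p) : ∃ F : Finset (Finset V),
      (∀ S ∈ F, ∃ (t : ℕ) (x : ℕ → V), 2 * t ≤ l ∧ (∀ i, t ≤ i → i ≤ l - t → lev (x i) = i) ∧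
        (∀ i, t ≤ i → i < l - t → ω (x i) (x (i + 1)) ≠ 0) ∧ S = (Icc t (l - t)).image x) ∧
      (∀ S ∈ F, ∀ S' ∈ F, S ≠ S' → Disjoint S S') ∧
      ∑ s ∈ I, ((l : ℝ) - 2 * lo s + 1) = (F.biUnion id).card := by
  have dj : ∀ s ∈ I, ∀ s' ∈ I, s ≠ s' → Disjoint ((Icc (lo s) (l - lo s)).image (p s))
      ((Icc (lo s') (l - lo s')).image (p s')) := fun s hs s' hs' e => by
    rw [disjoint_left]
    intro u h1 h2
    obtain ⟨i, hi, rfl⟩ := mem_image.1 h1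
    obtain ⟨j, hj, e'⟩ := mem_image.1 h2
    rw [mem_Icc] at hi hj
    obtain rfl : j = i := by
      rw [← (h.1 s hs).2.2.1 i hi.1 hi.2, ← e', (h.1 s' hs').2.2.1 j hj.1 hj.2]
    exact e (h.2 s hs s' hs' j hi.1 hi.2 hj.1 hj.2 e'.symm)
  refine ⟨I.image fun s => (Icc (lo s) (l - lo s)).image (p s), fun S hS => ?_,
    fun S hS S' hS' e => ?_, ?_⟩
  · obtain ⟨s, hs, rfl⟩ := mem_image.1 hS
    exact ⟨lo s, p s, (h.1 s hs).2.1, (h.1 s hs).2.2.1, (h.1 s hs).2.2.2, rfl⟩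
  · obtain ⟨s, hs, rfl⟩ := mem_image.1 hS
    obtain ⟨s', hs', rfl⟩ := mem_image.1 hS'
    exact dj s hs s' hs' fun e' => e (e' ▸ rfl)
  · rw [image_biUnion]
    simp only [id]
    rw [card_biUnion fun s hs s' hs' e => dj s hs s' hs' e, Nat.cast_sum]
    refine sum_congr rfl fun s hs => ?_
    have := (h.1 s hs).2.1
    rw [card_image_of_injOn fun i hi j hj e => ?_, Nat.card_Icc,
      show l - lo s + 1 - lo s = l + 1 - 2 * lo s by omega, Nat.cast_sub (by omega)]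
    · push_cast; ring
    · rw [coe_Icc] at hi hj
      rw [← (h.1 s hs).2.2.1 i hi.1 hi.2, e, (h.1 s hs).2.2.1 j hj.1 hj.2]

theorem cheb (lev : V → ℕ) (ω : V → V → ℝ) (l : ℕ) (hl : ∀ u v, ω u v ≠ 0 → lev v = lev u + 1)
    (hd : ∀ u, out ω u - inn ω u = l - 2 * lev u) :
    ∑ u, ((l : ℝ) - 2 * lev u) ^ 2 = 2 * ∑ u, out ω u := by
  have e : ∀ u, ((l : ℝ) - 2 * lev u) ^ 2 = ∑ v, ((l : ℝ) - 2 * lev u) * ω u v
      - ∑ v, ((l : ℝ) - 2 * lev u) * ω v u := fun u => by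
    rw [← mul_sum, ← mul_sum, ← mul_sub, sq]
    exact congrArg _ (hd u).symm
  rw [sum_congr rfl fun u _ => e u, sum_sub_distrib,
    sum_comm (f := fun u v => ((l : ℝ) - 2 * lev u) * ω v u), ← sum_sub_distrib, mul_sum]
  refine sum_congr rfl fun u _ => ?_
  rw [out, mul_sum, ← sum_sub_distrib]
  refine sum_congr rfl fun v _ => ?_
  by_cases c : ω u v = 0
  · simp [c]
  · rw [hl u v c]; push_cast; ring

theorem count (lev : V → ℕ) (l X : ℕ) (hX : 1 ≤ X) (hle : ∀ u, lev u ≤ l)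
    (hsym : ∀ k ≤ l, nn lev (l - k) = nn lev k) :
    (Fintype.card V : ℝ) ≤ (∑ u, ((l : ℝ) - 2 * lev u) ^ 2) / (4 * X ^ 2)
      + 2 * ∑ k ∈ Ico (l / 2 - X) (l / 2 + 1), nn lev k := by
  have e : 2 * ∑ k ∈ Ico (l / 2 - X) (l / 2 + 1), nn lev k = ∑ u, ∑ k ∈ Ico (l / 2 - X) (l / 2 + 1),
      ((if lev u = k then (1 : ℝ) else 0) + if lev u = l - k then 1 else 0) := by
    rw [sum_comm, mul_sum]
    refine sum_congr rfl fun k hk => ?_
    rw [sum_add_distrib, sum_boole, sum_boole, two_mul]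
    exact congrArg _ (hsym k (by have := mem_Ico.1 hk; omega)).symm
  rw [e, sum_div, ← sum_add_distrib, ← card_univ, card_eq_sum_ones, Nat.cast_sum]
  refine sum_le_sum fun u _ => ?_
  have n0 : ∀ k ∈ Ico (l / 2 - X) (l / 2 + 1), (0 : ℝ) ≤
    (if lev u = k then (1 : ℝ) else 0) + if lev u = l - k then 1 else 0 := fun k _ => by positivity
  have n1 : 0 ≤ ((l : ℝ) - 2 * lev u) ^ 2 / (4 * X ^ 2) := by positivity
  have := hle u
  rw [Nat.cast_one]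
  by_cases c1 : lev u ∈ Ico (l / 2 - X) (l / 2 + 1)
  · refine le_add_of_nonneg_of_le n1 (le_trans ?_ (single_le_sum n0 c1))
    rw [if_pos rfl]
    exact le_add_of_nonneg_right (by positivity)
  by_cases c2 : l - lev u ∈ Ico (l / 2 - X) (l / 2 + 1)
  · refine le_add_of_nonneg_of_le n1 (le_trans ?_ (single_le_sum n0 c2))
    rw [if_pos (show lev u = l - (l - lev u) by omega)]
    exact le_add_of_nonneg_left (by positivity)
  refine le_add_of_le_of_nonneg ((one_le_div (by positivity)).2 ?_) (sum_nonneg n0)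
  rw [mem_Ico] at c1 c2
  have x0 : (0 : ℝ) ≤ X := by positivity
  rcases (by omega : 2 * X + 2 * lev u ≤ l ∨ 2 * X + l ≤ 2 * lev u) with c | c
  · have : (2 : ℝ) * X + 2 * lev u ≤ l := by exact_mod_cast c
    nlinarith
  · have : (2 : ℝ) * X + l ≤ 2 * lev u := by exact_mod_cast c
    nlinarith

theorem mid_le (lev : V → ℕ) (ω : V → V → ℝ) (l : ℕ) (h0 : ∀ u v, 0 ≤ ω u v)
    (hl : ∀ u v, ω u v ≠ 0 → lev v = lev u + 1) (hd : ∀ u, out ω u - inn ω u = l - 2 * lev u)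
    (K : ℕ) (hK : K ≤ l / 2) :
    K * OO lev ω (l / 2) ≤ ∑ u, out ω u + K * ((2 * K + 1) * Fintype.card V) := by
  have a1 := fiber_le lev (out ω) (fun u => sum_nonneg fun _ _ => h0 _ _) (Ico (l / 2 - K) (l / 2))
  have a2 : ∑ k ∈ Ico (l / 2 - K) (l / 2), (OO lev ω (l / 2) - (2 * K + 1) * Fintype.card V)
      ≤ ∑ k ∈ Ico (l / 2 - K) (l / 2), OO lev ω k := sum_le_sum fun k hk => by
    rw [mem_Ico] at hk
    have d1 := OO_drop lev ω l hl hd k (l / 2) (2 * K + 1) hk.2.le (by omega)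
    have d2 := fiber_le lev (fun _ => 1) (fun _ => zero_le_one) (Ioc k (l / 2))
    simp only [sum_const, nsmul_eq_mul, mul_one, card_univ] at d2
    have d3 := mul_le_mul_of_nonneg_left d2 (Nat.cast_nonneg (α := ℝ) (2 * K + 1))
    unfold nn at d1
    push_cast at d1 d3
    linarith
  rw [sum_const, Nat.card_Ico, nsmul_eq_mul, show l / 2 - (l / 2 - K) = K by omega] at a2
  unfold OO at a2 ⊢
  linarith

theorem almost (lev : V → ℕ) (ω : V → V → ℝ) (l w : ℕ) (r c : ℝ)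
    (h0 : ∀ u v, 0 ≤ ω u v) (hl : ∀ u v, ω u v ≠ 0 → lev v = lev u + 1)
    (hd : ∀ u, out ω u - inn ω u = l - 2 * lev u) (hle : ∀ u, lev u ≤ l)
    (hsym : ∀ k ≤ l, nn lev (l - k) = nn lev k) (hA : ∑ u, out ω u = r ^ 2 * Fintype.card V)
    (hc0 : 0 ≤ c) (hc : ∀ u, inn ω u ≤ c ∧ out ω u ≤ c) (hw : 2 ≤ w) (hr : (w : ℝ) ^ 4 ≤ r)
    (hlr : 4 * w * r + 1 ≤ l)
    (hB : (c / r ^ 2 + 1) * (univ.filter fun u => ¬ (|inn ω u - r ^ 2| ≤ r ^ 2 / w ^ 8 ∧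
      |out ω u - r ^ 2| ≤ r ^ 2 / w ^ 8)).card + 1 ≤ Fintype.card V / (r * w ^ 8)) :
    ∃ t I lo p, Sys lev ω l t I lo p ∧
      (1 - 1500 / w) * (Fintype.card V : ℝ) ≤ ∑ s ∈ I, ((l : ℝ) - 2 * lo s + 1) := by
  obtain ⟨T, hT⟩ : ∃ T : V → Prop, T = fun u => (|inn ω u - r ^ 2| ≤ r ^ 2 / w ^ 8 ∧
      |out ω u - r ^ 2| ≤ r ^ 2 / w ^ 8) := ⟨_, rfl⟩
  obtain ⟨N, hN⟩ : ∃ N : ℝ, N = Fintype.card V := ⟨_, rfl⟩
  obtain ⟨B, hB'⟩ : ∃ B : ℝ, B = (univ.filter fun u => ¬ T u).card := ⟨_, rfl⟩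
  replace hB : (c / r ^ 2 + 1) * B + 1 ≤ N / (r * w ^ 8) := by
    rw [hB', hN, hT]
    convert hB
  have N0 : 0 ≤ N := by rw [hN]; positivity
  have B0 : 0 ≤ B := by rw [hB']; positivity
  have w2 : (2 : ℝ) ≤ w := by exact_mod_cast hw
  have w1 : (1 : ℝ) ≤ w := by linarith
  have wp : ∀ i j : ℕ, i ≤ j → (w : ℝ) ^ i ≤ w ^ j := fun i j h => pow_le_pow_right₀ w1 h
  have w8 : (2 : ℝ) ≤ w ^ 8 := w2.trans (by simpa using wp 1 8 (by omega))
  have r1 : (w : ℝ) ≤ r := le_trans (by simpa using wp 1 4 (by omega)) hr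
  have r0 : 0 < r := by linarith
  obtain ⟨a, ha⟩ : ∃ a : ℝ, a = r ^ 2 - r ^ 2 / w ^ 8 := ⟨_, rfl⟩
  obtain ⟨b, hb⟩ : ∃ b : ℝ, b = r ^ 2 + r ^ 2 / w ^ 8 := ⟨_, rfl⟩
  have a1 : r ^ 2 / 2 ≤ a := by
    have := div_le_div_of_nonneg_left (sq_nonneg r) two_pos w8
    linarith
  have b1 : r ^ 2 ≤ b := hb ▸ le_add_of_nonneg_right (by positivity)
  have a0 : 0 < a := lt_of_lt_of_le (by positivity) a1
  have b0 : 0 < b := lt_of_lt_of_le (by positivity) b1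
  have ab : a ≤ b := ha ▸ le_trans (sub_le_self _ (by positivity)) b1
  have ab1 : 1 - a / b ≤ 2 / w ^ 8 := by
    rw [one_sub_div b0.ne', div_le_div_iff₀ b0 (by positivity), hb, ha]
    have : (r ^ 2 + r ^ 2 / w ^ 8 - (r ^ 2 - r ^ 2 / w ^ 8)) * (w : ℝ) ^ 8 = 2 * r ^ 2 := by
      field_simp; ring
    rw [this, ← hb]
    linarith
  have ab0 : 0 ≤ 1 - a / b := sub_nonneg.2 ((div_le_one b0).2 ab)
  have hT' : ∀ u, T u → a ≤ inn ω u ∧ inn ω u ≤ b ∧ a ≤ out ω u ∧ out ω u ≤ b := fun u h => by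
    rw [hT] at h
    simp only [abs_le] at h
    rw [ha, hb]
    refine ⟨?_, ?_, ?_, ?_⟩ <;> linarith [h.1.1, h.1.2, h.2.1, h.2.2]
  have cb : c / b ≤ c / r ^ 2 := div_le_div_of_nonneg_left hc0 (by positivity) b1
  have cb0 : 0 ≤ c / b := by positivity
  obtain ⟨q, hq⟩ : ∃ q : ℝ, q = N / r := ⟨_, rfl⟩
  have q0 : 0 ≤ q := by rw [hq]; positivity
  have hN' : N = r * q := by rw [hq]; field_simp
  have B1 : (c / b + 1) * B + 1 ≤ q / w ^ 8 := by
    rw [hq, div_div]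
    nlinarith
  have B2 : B ≤ q / w ^ 8 := by nlinarith
  have B3 : B ≤ q := B2.trans (div_le_self q0 (by linarith))
  have m1 : 2 * w * r ≤ (l / 2 : ℕ) := by
    have : l ≤ 2 * (l / 2) + 1 := by omega
    have : (l : ℝ) ≤ 2 * (l / 2 : ℕ) + 1 := by exact_mod_cast this
    linarith
  have hW : ∀ k ≤ l / 2, nn lev k ≤ 13 * q := fun k hk => by
    have k1 := Nat.le_ceil r
    have k2 := Nat.ceil_lt_add_one r0.le
    have k3 := mid_le lev ω l h0 hl hd ⌈r⌉₊ (Nat.cast_le (α := ℝ).1 (by nlinarith))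
    have k4 := (lev_bounds lev T (out ω) a b c a0.le (fun u => sum_nonneg fun _ _ => h0 _ _)
      (fun u h => (hT' u h).2.2) (fun u => (hc u).2) k).1
    have k5 := OO_mono lev ω l hl hd k (l / 2) hk (by omega)
    rw [hA, ← hN] at k3
    rw [← hB'] at k4
    have k6 : OO lev ω (l / 2) ≤ 6 * r * N := by
      refine le_of_mul_le_mul_left (k3.trans ?_) (r0.trans_le k1)
      have := mul_le_mul_of_nonneg_right k1 (mul_nonneg r0.le N0)
      have k7 : (2 * (⌈r⌉₊ : ℝ) + 1) * N ≤ 5 * r * N :=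
        mul_le_mul_of_nonneg_right (by linarith) N0
      have := mul_le_mul_of_nonneg_left k7 (Nat.cast_nonneg (α := ℝ) ⌈r⌉₊)
      nlinarith
    have k7 : nn lev k - B ≤ 12 * q := by
      refine le_of_mul_le_mul_left ((k4.trans (k5.trans k6)).trans ?_) a0
      have := mul_le_mul_of_nonneg_right a1 q0
      rw [hN']
      linarith
    linarith
  obtain ⟨L, hL⟩ : ∃ L : ℕ, L = ⌈r / w ^ 3⌉₊ := ⟨_, rfl⟩
  have L0 : 1 ≤ r / w ^ 3 := (one_le_div (by positivity)).2 ((wp 3 4 (by omega)).trans hr)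
  have L1 : r / w ^ 3 ≤ L := hL ▸ Nat.le_ceil _
  have L2 : (L : ℝ) ≤ r / w ^ 3 + 1 := hL ▸ (Nat.ceil_lt_add_one (by positivity)).le
  obtain ⟨X, hX⟩ : ∃ X : ℕ, X = w ^ 4 * L := ⟨_, rfl⟩
  have e1 : (w : ℝ) ^ 4 * (r / w ^ 3) = w * r := by field_simp
  have X1 : w * r ≤ X := by
    rw [hX, ← e1]
    push_cast
    gcongr
  have X2 : (X : ℝ) ≤ 2 * w * r := by
    have : (X : ℝ) ≤ w ^ 4 * (r / w ^ 3 + 1) := by
      rw [hX]
      push_cast
      gcongr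
    nlinarith
  have X3 : ((2 * X + 1 : ℕ) : ℝ) ≤ 5 * w * r := by push_cast; nlinarith
  have X4 : ((2 * X + 1 : ℕ) : ℝ) / b ≤ 5 * w / r := by
    rw [div_le_div_iff₀ b0 r0]
    nlinarith
  obtain ⟨I, lo, p, h1, -, h2⟩ := stages lev ω T a b c (13 * q) l L (w ^ 4) h0 hl a0.le b0 ab hc0 hT'
    hc hd hW ((hsym (l / 2) (by omega)).trans_le (hW _ le_rfl)) (Nat.cast_le (α := ℝ).1 (by push_cast; linarith))
    (hX ▸ Nat.cast_le (α := ℝ).1 (X2.trans m1)) (64 * (q / w ^ 7)) (349 * (q / w ^ 2))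
    (by
      rw [← hX, ← hB', ← hN, mul_div_assoc]
      have g1 : (1 - a / b) * (((2 * X + 1 : ℕ) : ℝ) / b) * N ≤ 2 / w ^ 8 * (5 * w / r) * N := by
        gcongr
      have g2 : 2 / (w : ℝ) ^ 8 * (5 * w / r) * N = 10 * (q / w ^ 7) := by rw [hq]; field_simp; ring
      have g3 := mul_le_mul_of_nonneg_right ab1 q0
      have g4 : q / w ^ 8 ≤ q / w ^ 7 := div_le_div_of_nonneg_left q0 (by positivity)
        (wp 7 8 (by omega))
      have g5 : 2 / (w : ℝ) ^ 8 * q = 2 * (q / w ^ 8) := by ring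
      linarith)
    (by
      rw [← hX, ← hB']
      have g1 : (L : ℝ) * (((2 * X + 1 : ℕ) : ℝ) / b) * q ≤ (2 * (r / w ^ 3)) * (5 * w / r) * q := by
        gcongr
        linarith
      have g2 : (2 * (r / w ^ 3)) * (5 * w / r) * q = 10 * (q / w ^ 2) := by field_simp; ring
      have g3 := mul_le_mul_of_nonneg_right ab1 q0
      have g4 : q / w ^ 8 ≤ q / w ^ 2 := div_le_div_of_nonneg_left q0 (by positivity)
        (wp 2 8 (by omega))
      have g5 : 2 / (w : ℝ) ^ 8 * q = 2 * (q / w ^ 8) := by ring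
      have g6 : q / w ^ 7 ≤ q / w ^ 2 := div_le_div_of_nonneg_left q0 (by positivity)
        (wp 2 7 (by omega))
      have g7 : q / w ^ 3 ≤ q / w ^ 2 := div_le_div_of_nonneg_left q0 (by positivity)
        (wp 2 3 (by omega))
      have g8 : (w : ℝ) ^ 4 * (q / w ^ 7) = q / w ^ 3 := by field_simp
      have g9 : (L : ℝ) * ((2 * X + 1 : ℕ) : ℝ) * (13 * q) / b
        = 13 * ((L : ℝ) * (((2 * X + 1 : ℕ) : ℝ) / b) * q) := by ring
      rw [g9, Nat.cast_pow]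
      linarith) (w ^ 4) le_rfl
  refine ⟨_, I, lo, p, h1, le_trans ?_ h2⟩
  have X0 : (1 : ℝ) ≤ X := by nlinarith
  have X5 : X ≤ l / 2 := Nat.cast_le (α := ℝ).1 (X2.trans m1)
  have c1 := count lev l X (by exact_mod_cast X0) hle hsym
  rw [cheb lev ω l hl hd, hA, ← hN, sum_Ico_succ_top (Nat.sub_le _ _)] at c1
  rw [← hX, ← hN, sum_sub_distrib, sum_const, Nat.card_Ico, nsmul_eq_mul,
    show l / 2 - (l / 2 - X) = X by omega]
  have c2 := hW _ le_rfl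
  have c3 : 2 * (r ^ 2 * N) / (4 * X ^ 2) ≤ N / w := by
    rw [div_le_div_iff₀ (by positivity) (by positivity)]
    have : (w * r) ^ 2 ≤ (X : ℝ) ^ 2 := by gcongr
    have : r ^ 2 * w ≤ (w * r) ^ 2 := by nlinarith [mul_pos (by linarith : (0 : ℝ) < w) (sq_pos_of_pos r0)]
    nlinarith
  have c4 : q ≤ N / w := hq ▸ div_le_div_of_nonneg_left N0 (by positivity) r1
  have c5 : X * (q / w ^ 2) ≤ 2 * w * r * (q / w ^ 2) := by gcongr
  have c6 : 2 * w * r * (q / w ^ 2) = 2 * (N / w) := by rw [hq]; field_simp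
  have c7 : (1 - 1500 / w) * N = N - 1500 * (N / w) := by ring
  have c8 : 0 ≤ N / w := by positivity
  linarith

end Pool.Agent.Lib.MP_4ca2df_co
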