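import Pool.Agent.Lib.MP_4ca2df_co.H26Net

/-!
Systems of disjoint symmetric chains and their extension by one stage.
-/

namespace Pool.Agent.Lib.MP_4ca2df_co

open Finset
open scoped Classical

variable {V : Type*} [Fintype V]

/-- a system of disjoint symmetric chains inside the levels `t .. l - t` -/
def Sys (lev : V → ℕ) (ω : V → V → ℝ) (l t : ℕ) (I : Finset V) (lo : V → ℕ) (p : V → ℕ → V) :
    Prop :=
  (∀ s ∈ I, t ≤ lo s ∧ 2 * lo s ≤ l ∧ (∀ i, lo s ≤ i → i ≤ l - lo s → lev (p s i) = i) ∧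
    (∀ i, lo s ≤ i → i < l - lo s → ω (p s i) (p s (i + 1)) ≠ 0)) ∧
  (∀ s ∈ I, ∀ s' ∈ I, ∀ i, lo s ≤ i → i ≤ l - lo s → lo s' ≤ i → i ≤ l - lo s' →
    p s i = p s' i → s = s')

theorem nu (b : ℝ) (hb : 0 < b) (l r : ℕ) : ∃ ν : ℕ → ℝ, (∀ k, 0 ≤ ν k) ∧ (∀ k, ν k ≤ 1 / b) ∧
    (∀ k ≤ r, ν k = 1 / b) ∧ ∀ k, r < k → ν (k - 1) = ν k * (1 + ((l - 2 * k : ℕ) : ℝ) / b) := by
  have h1 : ∀ i : ℕ, (1 : ℝ) ≤ 1 + ((l - 2 * i : ℕ) : ℝ) / b := fun i =>
    le_add_of_nonneg_right (by positivity)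
  refine ⟨fun k => 1 / b * ∏ i ∈ Ioc r k, (1 + ((l - 2 * i : ℕ) : ℝ) / b)⁻¹, fun k => by positivity,
    fun k => mul_le_of_le_one_right (by positivity) (prod_le_one (fun i _ => by positivity)
      fun i _ => inv_le_one_of_one_le₀ (h1 i)), fun k hk => ?_, fun k hk => ?_⟩
  · simp only [Ioc_eq_empty_of_le hk, prod_empty, mul_one]
  · obtain ⟨k, rfl⟩ : ∃ j, k = j + 1 := ⟨k - 1, by omega⟩
    simp only [Nat.add_sub_cancel]
    rw [prod_Ioc_succ_top (by omega), mul_assoc, mul_assoc,
      inv_mul_cancel₀ (by linarith [h1 (k + 1)]), mul_one]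

theorem extend (lev : V → ℕ) (ω : V → V → ℝ) (T : V → Prop) (a b c W : ℝ) (l D : ℕ)
    (h0 : ∀ u v, 0 ≤ ω u v) (hl : ∀ u v, ω u v ≠ 0 → lev v = lev u + 1)
    (hb : 0 < b) (hab : a ≤ b)
    (hT : ∀ u, T u → a ≤ inn ω u ∧ inn ω u ≤ b ∧ a ≤ out ω u ∧ out ω u ≤ b)
    (hc : ∀ u, inn ω u ≤ c ∧ out ω u ≤ c) (hd : ∀ u, out ω u - inn ω u = l - 2 * lev u)
    (t L : ℕ) (hL : 1 ≤ L) (hLt : L ≤ t) (ht : 2 * t ≤ l) (hD : l - 2 * (t - L) ≤ D)
    (hW : ((univ.filter fun u => lev u = t).card : ℝ) ≤ W)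
    (I : Finset V) (lo : V → ℕ) (p : V → ℕ → V) (hS : Sys lev ω l t I lo p) :
    ∃ lo' p', Sys lev ω l (t - L) I lo' p' ∧
      ∑ s ∈ I, ((l : ℝ) - 2 * lo s + 1) + 2 * L * (I.filter fun s => lo' s = t - L).card
        = ∑ s ∈ I, ((l : ℝ) - 2 * lo' s + 1) ∧
      (I.filter fun s => lo s = t).card + (OO lev ω (t - L) - OO lev ω (t - 1)) / b
        - (2 * (1 - a / b) * W + 2 * (c / b + 1) * (univ.filter fun u => ¬ T u).card
          + (1 - a / b) * D / b * Fintype.card V + 1)
        ≤ (I.filter fun s => lo' s = t - L).card := by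
  obtain ⟨ν, n0, n1, n2, n3⟩ := nu b hb l (t - L)
  have ab : 0 ≤ 1 - a / b := sub_nonneg.2 ((div_le_one hb).2 hab)
  obtain ⟨F, hF⟩ : ∃ F : Finset V, ∀ s, s ∈ F ↔
      s ∈ I ∧ lo s = t ∧ T (p s t) ∧ T (p s (l - t)) :=
    ⟨I.filter fun s => lo s = t ∧ T (p s t) ∧ T (p s (l - t)), fun _ => mem_filter⟩
  have hσ : ∀ u : V, ∃ s, u ∈ F.image (fun s => p s t) → s ∈ F ∧ p s t = u := fun u => by
    by_cases h : u ∈ F.image (fun s => p s t)
    · obtain ⟨s, h1, h2⟩ := mem_image.1 h
      exact ⟨s, fun _ => ⟨h1, h2⟩⟩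
    · exact ⟨u, fun h' => absurd h' h⟩
  choose σ hσ using hσ
  have inj : ∀ s ∈ I, ∀ s' ∈ I, lo s = t → lo s' = t → ∀ i, t ≤ i → i ≤ l - t →
      p s i = p s' i → s = s' := fun s h s' h' e e' i h1 h2 =>
    hS.2 s h s' h' i (by omega) (by omega) (by omega) (by omega)
  obtain ⟨J, P, p1, p2, p3⟩ := net lev ω T a b c ((1 - a / b) * D / b) h0 hl hb hab (by positivity)
    hT hc t (l - t) L L hL hLt (by omega) (fun k => ν (min k (l - 1 - k))) (fun _ => n0 _)
    (fun _ => n1 _) (n2 _ (min_le_left _ _)) (le_of_eq (congrArg ν (by omega)))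
    (fun u hu h => by
      have b1 := hT u hu
      have b2 := hd u
      have b3 : 0 ≤ (1 - a / b) * D / b := by positivity
      rcases h with h | h
      · have e1 : min (lev u - 1) (l - 1 - (lev u - 1)) = lev u - 1 := by omega
        have e2 : min (lev u) (l - 1 - lev u) = lev u := by omega
        have e3 : ((l - 2 * lev u : ℕ) : ℝ) = l - 2 * lev u := by
          rw [Nat.cast_sub (by omega)]; push_cast; ring
        have e4 : (0 : ℝ) ≤ l - 2 * lev u := e3 ▸ Nat.cast_nonneg _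
        simp only [e1, e2]
        rcases h.1.eq_or_lt with c | c
        · rw [n2 _ (by omega), n2 _ (by omega)]
          nlinarith [one_div_pos.2 hb]
        · rw [n3 _ c, e3, mul_assoc]
          refine le_add_of_le_of_nonneg (mul_le_mul_of_nonneg_left ?_ (n0 _)) b3
          have := mul_le_mul_of_nonneg_left ((div_le_one hb).2 b1.2.1) e4
          have e5 : ((l : ℝ) - 2 * lev u) / b * inn ω u = (l - 2 * lev u) * (inn ω u / b) := by ring
          linarith
      · have e1 : min (lev u - 1) (l - 1 - (lev u - 1)) = l - lev u := by omega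
        have e2 : min (lev u) (l - 1 - lev u) = l - lev u - 1 := by omega
        have e3 : ((l - 2 * (l - lev u) : ℕ) : ℝ) = 2 * lev u - l := by
          rw [Nat.cast_sub (by omega), Nat.cast_mul, Nat.cast_sub (by omega)]; push_cast; ring
        have e4 : (0 : ℝ) ≤ 2 * lev u - l := e3 ▸ Nat.cast_nonneg _
        have e5 : (2 : ℝ) * lev u - l ≤ D := e3 ▸ Nat.cast_le.2 (by omega)
        simp only [e1, e2]
        rw [n3 _ (by omega), e3]
        have e6 : 1 - out ω u / b ≤ 1 - a / b :=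
          sub_le_sub_left (div_le_div_of_nonneg_right b1.2.2.1 hb.le) _
        have e7 : 0 ≤ 1 - out ω u / b := sub_nonneg.2 ((div_le_one hb).2 b1.2.2.2)
        have := mul_le_mul (n1 (l - lev u)) (mul_le_mul e6 e5 e4 ab) (mul_nonneg e7 e4)
          (by positivity)
        have e8 : inn ω u = out ω u + (2 * lev u - l) := by linarith
        rw [e8]
        refine sub_nonneg.1 (le_of_le_of_eq (sub_nonneg.2 this) ?_)
        ring)
    (F.image fun s => p s t) (fun u => p (σ u) (l - t))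
    (fun u hu => by
      obtain ⟨h1, h2⟩ := hσ u hu
      obtain ⟨g1, g2, g3, g4⟩ := (hF _).1 h1
      have := (hS.1 _ g1).2.2.1
      exact ⟨h2 ▸ this t (by omega) (by omega), this _ (by omega) (by omega), h2 ▸ g3, g4⟩)
    (fun u hu u' hu' e => by
      obtain ⟨h1, h2⟩ := hσ u hu
      obtain ⟨h1', h2'⟩ := hσ u' hu'
      rw [← h2, ← h2', inj _ ((hF _).1 h1).1 _ ((hF _).1 h1').1 ((hF _).1 h1).2.1
        ((hF _).1 h1').2.1 _ (by omega) le_rfl e])
  obtain ⟨E, hE⟩ : ∃ E, E = J.image fun s => σ (P s L) := ⟨_, rfl⟩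
  have hr : ∀ e : V, ∃ s, e ∈ E → s ∈ J ∧ σ (P s L) = e := fun u => by
    by_cases h : u ∈ E
    · obtain ⟨s, h1, h2⟩ := mem_image.1 (hE ▸ h)
      exact ⟨s, fun _ => ⟨h1, h2⟩⟩
    · exact ⟨u, fun h' => absurd h' h⟩
  choose r hr using hr
  have r1 : ∀ e ∈ E, e ∈ I ∧ lo e = t ∧ p e t = P (r e) L := fun e he => by
    have := hσ _ (p1 _ (hr e he).1).2.1
    rw [(hr e he).2] at this
    exact ⟨((hF _).1 this.1).1, ((hF _).1 this.1).2.1, this.2⟩
  have cE : E.card = J.card := hE ▸ card_image_of_injOn fun s h s' h' e => by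
    refine p2 s h s' h' L (by omega) ?_
    rw [← (hσ _ (p1 _ h).2.1).2, ← (hσ _ (p1 _ h').2.1).2]
    exact congrArg (fun u => p u t) e
  obtain ⟨lo', hlo⟩ : ∃ lo' : V → ℕ, ∀ e, lo' e = if e ∈ E then t - L else lo e := ⟨_, fun _ => rfl⟩
  obtain ⟨p', hp⟩ : ∃ p' : V → ℕ → V, ∀ e i, p' e i = if e ∈ E ∧ i < t then P (r e) (i - (t - L))
      else if e ∈ E ∧ l - t < i then P (r e) (i - (l - t) + L) else p e i := ⟨_, fun _ _ => rfl⟩
  have q1 : ∀ e ∈ E, ∀ i ≤ t, p' e i = P (r e) (i - (t - L)) := fun e he i hi => by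
    rw [hp]
    split_ifs with c1 c2
    · rfl
    · omega
    · obtain rfl : i = t := by by_contra hc; exact c1 ⟨he, by omega⟩
      rw [(r1 e he).2.2]
      congr 1
      omega
  have q2 : ∀ e i, t ≤ i → i ≤ l - t → p' e i = p e i := fun e i h1 h2 => by
    rw [hp, if_neg (by omega), if_neg (by omega)]
  have q3 : ∀ e ∈ E, ∀ i, l - t < i → p' e i = P (r e) (i - (l - t) + L) := fun e he i hi => by
    rw [hp, if_neg (by omega), if_pos ⟨he, hi⟩]
  have q4 : ∀ e, e ∉ E → ∀ i, p' e i = p e i := fun e he i => by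
    rw [hp, if_neg (by tauto), if_neg (by tauto)]
  have fE : (I.filter fun s => lo' s = t - L) = E := by
    ext e
    rw [mem_filter, hlo]
    split_ifs with c
    · simp [c, (r1 e c).1]
    · refine ⟨fun h => ?_, fun h => absurd h c⟩
      have := (hS.1 e h.1).1
      omega
  refine ⟨lo', p', ⟨fun e he => ?_, fun e he e' he' i h1 h2 h3 h4 h5 => ?_⟩, ?_, ?_⟩
  · rw [hlo]
    obtain ⟨g1, g2, g3, g4⟩ := hS.1 e he
    split_ifs with c
    · obtain ⟨k1, -, k2, k3⟩ := p1 _ (hr e c).1
      have k4 := (r1 e c).2.1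
      refine ⟨le_rfl, by omega, fun i h1 h2 => ?_, fun i h1 h2 => ?_⟩
      · rcases le_or_gt i t with d | d
        · rw [q1 e c i d, k1 _ (by omega)]; omega
        rcases le_or_gt i (l - t) with d' | d'
        · rw [q2 e i d.le d', g3 i (by omega) (by omega)]
        · rw [q3 e c i d', k2 _ (by omega) (by omega)]; omega
      · rcases lt_or_ge i t with d | d
        · have := k3 (i - (t - L)) (by omega)
          rw [if_neg (by omega)] at this
          rwa [q1 e c i d.le, q1 e c (i + 1) d, show i + 1 - (t - L) = i - (t - L) + 1 by omega]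
        rcases lt_trichotomy i (l - t) with d' | d' | d'
        · rw [q2 e i d d'.le, q2 e (i + 1) (by omega) d']
          exact g4 i (by omega) (by omega)
        · have := k3 L (by omega)
          rw [if_pos rfl, (hr e c).2] at this
          rwa [q2 e i d d'.le, q3 e c (i + 1) (by omega), d',
            show l - t + 1 - (l - t) + L = L + 1 by omega]
        · have := k3 (i - (l - t) + L) (by omega)
          rw [if_neg (by omega)] at this
          rwa [q3 e c i d', q3 e c (i + 1) (by omega),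
            show i + 1 - (l - t) + L = i - (l - t) + L + 1 by omega]
    · simp only [q4 e c]
      exact ⟨by omega, g2, g3, g4⟩
  · have g1 := (hS.1 e he).1
    have g2 := (hS.1 e' he').1
    have g3 := r1 e
    have g4 := r1 e'
    rw [hlo] at h1 h2 h3 h4
    by_cases d : t ≤ i ∧ i ≤ l - t
    · rw [q2 e i d.1 d.2, q2 e' i d.1 d.2] at h5
      refine hS.2 e he e' he' i ?_ ?_ ?_ ?_ h5
      · split_ifs at h1 with c; exacts [by have := g3 c; omega, h1]
      · split_ifs at h2 with c; exacts [by have := g3 c; omega, h2]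
      · split_ifs at h3 with c; exacts [by have := g4 c; omega, h3]
      · split_ifs at h4 with c; exacts [by have := g4 c; omega, h4]
    · have c : e ∈ E := by by_contra c; rw [if_neg c] at h1 h2; omega
      have c' : e' ∈ E := by by_contra c; rw [if_neg c] at h3 h4; omega
      rw [if_pos c] at h1 h2
      have : r e = r e' := by
        rcases lt_or_ge i t with d' | d'
        · rw [q1 e c i d'.le, q1 e' c' i d'.le] at h5
          exact p2 _ (hr e c).1 _ (hr e' c').1 _ (by omega) h5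
        · rw [q3 e c i (by omega), q3 e' c' i (by omega)] at h5
          exact p2 _ (hr e c).1 _ (hr e' c').1 _ (by omega) h5
      rw [← (hr e c).2, ← (hr e' c').2, this]
  · have : (2 : ℝ) * L * E.card = ∑ s ∈ I, if s ∈ E then (2 : ℝ) * L else 0 := by
      rw [← sum_filter, filter_mem_eq_inter, inter_eq_right.2 fun e he => (r1 e he).1, sum_const,
        nsmul_eq_mul, mul_comm]
    rw [fE, this, ← sum_add_distrib]
    refine sum_congr rfl fun s _ => ?_
    rw [hlo]
    split_ifs with c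
    · rw [(r1 s c).2.1, Nat.cast_sub hLt]; ring
    · ring
  · rw [fE, cE]
    have c1 : ((F.image fun s => p s t).card : ℝ) ≤ W := by
      refine le_trans (Nat.cast_le.2 (card_le_card fun u hu => ?_)) hW
      obtain ⟨s, h, rfl⟩ := mem_image.1 hu
      obtain ⟨g1, g2, -⟩ := (hF _).1 h
      exact mem_filter.2 ⟨mem_univ _, (hS.1 _ g1).2.2.1 t (by omega) (by omega)⟩
    have c2 : (F.image fun s => p s t).card = F.card := card_image_of_injOn fun s h s' h' e =>
      inj _ ((hF _).1 h).1 _ ((hF _).1 h').1 ((hF _).1 h).2.1 ((hF _).1 h').2.1 _ le_rfl (by omega) e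
    have c3 : ∀ i, t ≤ i → i ≤ l - t → (I.filter fun s => lo s = t ∧ ¬ T (p s i)).card
        ≤ (univ.filter fun u => ¬ T u).card := fun i h1 h2 =>
      card_le_card_of_injOn (fun s => p s i) (fun s h => by
        simpa using (mem_filter.1 h).2.2) fun s h s' h' e =>
        inj _ (mem_filter.1 h).1 _ (mem_filter.1 h').1 (mem_filter.1 h).2.1 (mem_filter.1 h').2.1
          _ h1 h2 e
    have c4 : (I.filter fun s => lo s = t).card ≤ F.card + (univ.filter fun u => ¬ T u).card
        + (univ.filter fun u => ¬ T u).card := by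
      refine le_trans (card_le_card (t := (F ∪ I.filter fun s => lo s = t ∧ ¬ T (p s t)) ∪
        I.filter fun s => lo s = t ∧ ¬ T (p s (l - t))) fun s h => ?_) ((card_union_le _ _).trans
        (add_le_add ((card_union_le _ _).trans (Nat.add_le_add_left (c3 t le_rfl (by omega)) _))
          (c3 _ (by omega) le_rfl)))
      simp only [mem_union, mem_filter, hF] at h ⊢
      tauto
    have c5 : ((I.filter fun s => lo s = t).card : ℝ) ≤ F.card
      + (univ.filter fun u => ¬ T u).card + (univ.filter fun u => ¬ T u).card := by exact_mod_cast c4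
    rw [c2] at c1 p3
    have c6 := mul_le_mul_of_nonneg_left c1 ab
    have e1 : (2 * a / b - 1) * (F.card : ℝ) = F.card - 2 * ((1 - a / b) * F.card) := by ring
    have e2 : 2 * c * ((univ.filter fun u => ¬ T u).card : ℝ) / b
      = 2 * (c / b) * (univ.filter fun u => ¬ T u).card := by ring
    rw [e1, e2] at p3
    linarith

end Pool.Agent.Lib.MP_4ca2df_co
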