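import Pool.Agent.Lib.MP_4ca2df_co.H26Chain

/-!
Iterating the extension stage: a lower bound for the number of covered vertices.
-/

namespace Pool.Agent.Lib.MP_4ca2df_co

open Finset
open scoped Classical

variable {V : Type*} [Fintype V]

/-- size of a level -/
noncomputable def nn (lev : V → ℕ) (k : ℕ) : ℝ := (univ.filter fun u => lev u = k).card

theorem nn_nonneg (lev : V → ℕ) (k : ℕ) : 0 ≤ nn lev k := Nat.cast_nonneg _

theorem fiber_le (lev : V → ℕ) (f : V → ℝ) (hf : ∀ u, 0 ≤ f u) (S : Finset ℕ) :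
    ∑ k ∈ S, ∑ u ∈ univ.filter (fun u => lev u = k), f u ≤ ∑ u, f u := by
  simp only [sum_filter]
  rw [sum_comm]
  refine sum_le_sum fun u _ => ?_
  rw [sum_ite_eq]
  split_ifs
  exacts [le_rfl, hf u]

theorem OO_diff (lev : V → ℕ) (ω : V → V → ℝ) (l : ℕ) (hl : ∀ u v, ω u v ≠ 0 → lev v = lev u + 1)
    (hd : ∀ u, out ω u - inn ω u = l - 2 * lev u) (k k' : ℕ) (h : k ≤ k') :
    OO lev ω k' - OO lev ω k = ∑ i ∈ Ioc k k', ((l : ℝ) - 2 * i) * nn lev i := by
  induction k', h using Nat.le_induction with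
  | base => simp
  | succ j hj ih =>
    rw [sum_Ioc_succ_top hj, ← ih]
    have : OO lev ω (j + 1) - OO lev ω j = ((l : ℝ) - 2 * (j + 1 : ℕ)) * nn lev (j + 1) := by
      rw [← in_eq_out lev ω hl j, OO, ← sum_sub_distrib, nn, card_eq_sum_ones, Nat.cast_sum, mul_sum]
      refine sum_congr rfl fun u hu => ?_
      rw [hd, (mem_filter.1 hu).2, Nat.cast_one, mul_one]
    linarith

theorem OO_mono (lev : V → ℕ) (ω : V → V → ℝ) (l : ℕ) (hl : ∀ u v, ω u v ≠ 0 → lev v = lev u + 1)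
    (hd : ∀ u, out ω u - inn ω u = l - 2 * lev u) (k k' : ℕ) (h : k ≤ k') (h' : 2 * k' ≤ l) :
    OO lev ω k ≤ OO lev ω k' := by
  rw [← sub_nonneg, OO_diff lev ω l hl hd k k' h]
  refine sum_nonneg fun i hi => mul_nonneg ?_ (nn_nonneg _ _)
  have : 2 * i ≤ l := by have := (mem_Ioc.1 hi).2; omega
  rw [sub_nonneg]
  exact_mod_cast this

theorem OO_drop (lev : V → ℕ) (ω : V → V → ℝ) (l : ℕ) (hl : ∀ u v, ω u v ≠ 0 → lev v = lev u + 1)
    (hd : ∀ u, out ω u - inn ω u = l - 2 * lev u) (k k' D : ℕ) (h : k ≤ k') (h' : l ≤ D + 2 * k) :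
    OO lev ω k' - OO lev ω k ≤ D * ∑ i ∈ Ioc k k', nn lev i := by
  rw [OO_diff lev ω l hl hd k k' h, mul_sum]
  refine sum_le_sum fun i hi => mul_le_mul_of_nonneg_right ?_ (nn_nonneg _ _)
  have : l ≤ D + 2 * i := by have := (mem_Ioc.1 hi).1; omega
  rw [sub_le_iff_le_add]
  exact_mod_cast this

theorem lev_bounds (lev : V → ℕ) (T : V → Prop) (f : V → ℝ) (a b c : ℝ) (ha : 0 ≤ a)
    (h0 : ∀ u, 0 ≤ f u) (hT : ∀ u, T u → a ≤ f u ∧ f u ≤ b) (hc : ∀ u, f u ≤ c) (k : ℕ) :
    a * (nn lev k - (univ.filter fun u => ¬ T u).card) ≤ ∑ u ∈ univ.filter (fun u => lev u = k), f u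
    ∧ ∑ u ∈ univ.filter (fun u => lev u = k), f u ≤ b * (univ.filter fun u => lev u = k ∧ T u).card
      + c * (univ.filter fun u => ¬ T u).card := by
  simp only [nn, card_filter, Nat.cast_sum, sum_filter, mul_sum, ← sum_sub_distrib,
    ← sum_add_distrib]
  constructor <;> refine sum_le_sum fun u _ => ?_ <;> have g1 := h0 u <;> have g2 := hc u <;>
    by_cases c1 : T u <;> by_cases c2 : lev u = k <;> simp [c1, c2] <;>
    first | linarith | linarith [hT u c1]

theorem start (lev : V → ℕ) (ω : V → V → ℝ) (T : V → Prop) (a b c W : ℝ) (l : ℕ)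
    (h0 : ∀ u v, 0 ≤ ω u v) (hl : ∀ u v, ω u v ≠ 0 → lev v = lev u + 1)
    (ha : 0 ≤ a) (hb : 0 < b) (hab : a ≤ b) (hc0 : 0 ≤ c)
    (hT : ∀ u, T u → a ≤ inn ω u ∧ inn ω u ≤ b ∧ a ≤ out ω u ∧ out ω u ≤ b)
    (hc : ∀ u, inn ω u ≤ c ∧ out ω u ≤ c) (hd : ∀ u, out ω u - inn ω u = l - 2 * lev u)
    (hW : nn lev (l - l / 2) ≤ W) :
    ∃ I lo p, Sys lev ω l (l / 2) I lo p ∧ OO lev ω (l / 2) / b
      - (2 * (1 - a / b) * W + 3 * (c / b) * (univ.filter fun u => ¬ T u).card + 1)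
      ≤ (I.filter fun s => lo s = l / 2).card := by
  have ab : 0 ≤ 1 - a / b := sub_nonneg.2 ((div_le_one hb).2 hab)
  have W0 : 0 ≤ W := (nn_nonneg _ _).trans hW
  have n1 : 0 ≤ (c / b) * (univ.filter fun u => ¬ T u).card := by positivity
  rcases Nat.even_or_odd' l with ⟨m, rfl | rfl⟩
  · rw [show 2 * m / 2 = m by omega]
    refine ⟨univ.filter fun u => lev u = m, fun _ => m, fun s _ => s, ⟨fun s hs => ⟨le_rfl, le_rfl,
      fun i h1 h2 => ?_, fun i h1 h2 => by simp only at h1 h2; omega⟩,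
      fun _ _ _ _ _ _ _ _ _ h => h⟩, ?_⟩
    · simp only at h1 h2 ⊢
      rw [(mem_filter.1 hs).2]; omega
    · have := (lev_bounds lev T (out ω) a b c ha (fun u => sum_nonneg fun _ _ => h0 _ _)
        (fun u h => (hT u h).2.2) (fun u => (hc u).2) m).2
      have c1 : ((univ.filter fun u => lev u = m ∧ T u).card : ℝ) ≤
          ((univ.filter fun u => lev u = m).filter fun _ => m = m).card :=
        Nat.cast_le.2 (card_le_card fun u hu => by simp at hu ⊢; exact hu.1)
      have c2 := div_le_div_of_nonneg_right this hb.le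
      rw [add_div, mul_div_cancel_left₀ _ hb.ne', mul_div_right_comm] at c2
      have := mul_nonneg ab W0
      unfold OO
      linarith
  · rw [show (2 * m + 1) / 2 = m by omega] at hW ⊢
    rw [show 2 * m + 1 - m = m + 1 by omega] at hW
    obtain ⟨J, P, p1, p2, p3⟩ := net lev ω T a b c 0 h0 hl hb hab le_rfl hT hc (m + 1) (m + 1) 1 0
      le_rfl (by omega) le_rfl (fun _ => 1 / b) (fun _ => by positivity) (fun _ => le_rfl) rfl le_rfl
      (fun u _ h => by
        have h1 := hd u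
        rw [show lev u = m by omega] at h1
        push_cast at h1
        nlinarith [one_div_pos.2 hb])
      (univ.filter fun u => lev u = m + 1 ∧ T u) id (fun u hu => by
        have := (mem_filter.1 hu).2
        exact ⟨this.1, this.1, this.2, this.2⟩) (Set.injOn_id _)
    refine ⟨J, fun _ => m, fun s i => P s (i - m), ⟨fun s hs => ⟨le_rfl, Nat.le_succ _,
      fun i h1 h2 => ?_, fun i h1 h2 => ?_⟩, fun s hs s' hs' i h1 h2 _ _ h =>
        p2 s hs s' hs' _ (by simp only at h2; omega) h⟩, ?_⟩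
    · simp only at h1 h2 ⊢
      rw [(p1 s hs).1 _ (by omega)]; omega
    · simp only at h1 h2 ⊢
      have := (p1 s hs).2.2.2 0 (by omega)
      rwa [show i - m = 0 by omega, show i + 1 - m = 0 + 1 by omega]
    · have := (lev_bounds lev T (inn ω) a b c ha (fun u => sum_nonneg fun _ _ => h0 _ _)
        (fun u h => ⟨(hT u h).1, (hT u h).2.1⟩) (fun u => (hc u).1) (m + 1)).2
      rw [in_eq_out lev ω hl] at this
      have c1 : ((univ.filter fun u => lev u = m + 1 ∧ T u).card : ℝ) ≤ W :=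
        le_trans (Nat.cast_le.2 (card_le_card fun u hu => by simp at hu ⊢; exact hu.1)) hW
      have c2 := div_le_div_of_nonneg_right this hb.le
      rw [add_div, mul_div_cancel_left₀ _ hb.ne', mul_div_right_comm] at c2
      have c3 := mul_le_mul_of_nonneg_left c1 ab
      rw [filter_true_of_mem fun _ _ => rfl]
      rw [Nat.add_sub_cancel, sub_self, zero_div, mul_div_right_comm (2 * c), mul_div_assoc 2 a,
        mul_div_assoc 2 c] at p3
      linarith

theorem stages (lev : V → ℕ) (ω : V → V → ℝ) (T : V → Prop) (a b c W : ℝ) (l L J : ℕ)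
    (h0 : ∀ u v, 0 ≤ ω u v) (hl : ∀ u v, ω u v ≠ 0 → lev v = lev u + 1)
    (ha : 0 ≤ a) (hb : 0 < b) (hab : a ≤ b) (hc0 : 0 ≤ c)
    (hT : ∀ u, T u → a ≤ inn ω u ∧ inn ω u ≤ b ∧ a ≤ out ω u ∧ out ω u ≤ b)
    (hc : ∀ u, inn ω u ≤ c ∧ out ω u ≤ c) (hd : ∀ u, out ω u - inn ω u = l - 2 * lev u)
    (hW : ∀ k ≤ l / 2, nn lev k ≤ W) (hW' : nn lev (l - l / 2) ≤ W) (hL : 1 ≤ L)
    (hJ : J * L ≤ l / 2) (e F : ℝ) (he : 2 * (1 - a / b) * W + 2 * (c / b + 1) *
      (univ.filter fun u => ¬ T u).card + (1 - a / b) * (2 * (J * L) + 1 : ℕ) / b * Fintype.card V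
      + 1 ≤ e) (hF : (1 - a / b) * W + (univ.filter fun u => ¬ T u).card
        + L * (2 * (J * L) + 1 : ℕ) * W / b + (J + 2) * e ≤ F) :
    ∀ j ≤ J, ∃ I lo p, Sys lev ω l (l / 2 - j * L) I lo p ∧ OO lev ω (l / 2 - j * L) / b
      - (j + 2) * e ≤ (I.filter fun s => lo s = l / 2 - j * L).card ∧
      2 * ∑ k ∈ Ico (l / 2 - j * L) (l / 2), (nn lev k - F) ≤ ∑ s ∈ I, ((l : ℝ) - 2 * lo s + 1) := by
  have ab : 0 ≤ 1 - a / b := sub_nonneg.2 ((div_le_one hb).2 hab)
  have W0 : 0 ≤ W := (nn_nonneg _ _).trans hW'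
  have n1 : 0 ≤ (c / b) * (univ.filter fun u => ¬ T u).card := by positivity
  have n2 : (0 : ℝ) ≤ (univ.filter fun u => ¬ T u).card := by positivity
  have n3 := mul_nonneg ab W0
  have n4 : 0 ≤ (1 - a / b) * (2 * (J * L) + 1 : ℕ) / b * Fintype.card V := by positivity
  have e0 : 0 ≤ e := by linarith
  intro j
  induction j with
  | zero =>
    intro _
    obtain ⟨I, lo, p, h1, h2⟩ := start lev ω T a b c W l h0 hl ha hb hab hc0 hT hc hd hW'
    simp only [zero_mul, Nat.sub_zero, Ico_self, sum_empty, mul_zero, Nat.cast_zero, zero_add]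
    refine ⟨I, lo, p, h1, by linarith, sum_nonneg fun s hs => ?_⟩
    have : ((2 * lo s : ℕ) : ℝ) ≤ l := Nat.cast_le.2 (h1.1 s hs).2.1
    push_cast at this
    linarith
  | succ j ih =>
    intro hj
    obtain ⟨I, lo, p, h1, h2, h3⟩ := ih (by omega)
    have m1 : (j + 1) * L ≤ J * L := Nat.mul_le_mul_right _ hj
    have m2 : (j + 1) * L = j * L + L := by ring
    obtain ⟨t, ht⟩ : ∃ t, t = l / 2 - j * L := ⟨_, rfl⟩
    rw [← ht] at h1 h2 h3
    rw [show l / 2 - (j + 1) * L = t - L by omega]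
    obtain ⟨lo', p', g1, g2, g3⟩ := extend lev ω T a b c W l (2 * (J * L) + 1) h0 hl hb hab hT hc hd
      t L hL (by omega) (by omega) (by omega) (hW t (by omega)) I lo p h1
    have k1 : OO lev ω (t - L) / b - ((j + 1 : ℕ) + 2) * e
        ≤ (I.filter fun s => lo' s = t - L).card := by
      have := div_le_div_of_nonneg_right (OO_mono lev ω l hl hd (t - 1) t (by omega) (by omega))
        hb.le
      rw [sub_div] at g3
      push_cast at g3 he ⊢
      linarith
    refine ⟨I, lo', p', g1, k1, ?_⟩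
    rw [← sum_Ico_consecutive _ (Nat.sub_le t L) (by omega), ← g2]
    have k2 : ∑ k ∈ Ico (t - L) t, (nn lev k - F)
        ≤ ∑ k ∈ Ico (t - L) t, ((I.filter fun s => lo' s = t - L).card : ℝ) := by
      refine sum_le_sum fun k hk => le_trans ?_ k1
      rw [mem_Ico] at hk
      have d1 := OO_drop lev ω l hl hd (t - L) k (2 * (J * L) + 1) hk.1 (by omega)
      have d2 : ∑ i ∈ Ioc (t - L) k, nn lev i ≤ L * W := by
        refine (sum_le_card_nsmul _ _ W fun i hi => hW i (by have := mem_Ioc.1 hi; omega)).trans ?_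
        rw [nsmul_eq_mul, Nat.card_Ioc]
        exact mul_le_mul_of_nonneg_right (Nat.cast_le.2 (by omega)) W0
      have d3 := (lev_bounds lev T (out ω) a b c ha (fun u => sum_nonneg fun _ _ => h0 _ _)
        (fun u h => (hT u h).2.2) (fun u => (hc u).2) k).1
      have d4 := mul_le_mul_of_nonneg_left d2 (Nat.cast_nonneg (α := ℝ) (2 * (J * L) + 1))
      have d5 : (a * (nn lev k - (univ.filter fun u => ¬ T u).card)
          - L * (2 * (J * L) + 1 : ℕ) * W) / b ≤ OO lev ω (t - L) / b := by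
        refine div_le_div_of_nonneg_right ?_ hb.le
        unfold OO at d1 ⊢
        linarith
      rw [sub_div, mul_div_right_comm] at d5
      have d6 := mul_le_mul_of_nonneg_left (hW k (by omega)) ab
      have d7 := mul_nonneg ab n2
      have d8 : (((j + 1 : ℕ) : ℝ) + 2) * e ≤ (J + 2) * e :=
        mul_le_mul_of_nonneg_right (by gcongr) e0
      linarith
    rw [sum_const, Nat.card_Ico, nsmul_eq_mul, show t - (t - L) = L by omega] at k2
    linarith

end Pool.Agent.Lib.MP_4ca2df_co
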