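import Pool.Agent.Lib.MP_4ca2df_co.H26Perm

/-!
The abstract theorem applied to the permutahedron.
-/

namespace Pool.Agent.Lib.MP_4ca2df_co

open Finset Fintype Equiv
open scoped Classical

theorem bad_le {m : ℕ} (σ κ u M : ℝ) (hσ : |σ| = 1) (hκ : 0 ≤ κ) (hκ' : 4 * κ ≤ 1)
    (hM : ∑ x : Perm (Fin (m + 1)), ∑ i, max (σ * gg i (code x)) 0
      = M * Fintype.card (Perm (Fin (m + 1)))) :
    ∑ x : Perm (Fin (m + 1)), (if |∑ i, max (σ * gg i (code x)) 0 - M| ≤ u then (0 : ℝ) else 1)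
      ≤ 2 * Fintype.card (Perm (Fin (m + 1)))
        * Real.exp ((m + 1) * (4 * κ) ^ 2 - κ / (m + 1) ^ 2 * u) := by
  have e : κ / (m + 1 : ℝ) ^ 2 * (4 * (m + 1) ^ 2) = 4 * κ := by field_simp
  rw [sum_code fun c => ∑ i, max (σ * gg i c) 0, ← card_box] at hM
  have := tail_le (4 * (m + 1) ^ 2) (κ / (m + 1) ^ 2) u (by positivity) (by rwa [e]) (m + 1) _
    (fun i => ⟨0, mem_range.2 (by omega)⟩) (fun c => ∑ i, max (σ * gg i c) 0) M
    (fun c hc k a ha => by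
      rw [← sum_sub_distrib]
      refine (abs_sum_le_sum_abs _ _).trans ((sum_le_sum fun i _ => ?_).trans (gg_diff c hc k a ha))
      refine (abs_max_sub_max_le_abs _ _ _).trans (le_of_eq ?_)
      rw [← mul_sub, abs_mul, hσ, one_mul]) hM
  rw [e, Nat.cast_succ] at this
  rw [sum_code fun c => if |∑ i, max (σ * gg i c) 0 - M| ≤ u then (0 : ℝ) else 1, ← card_box]
  exact this

theorem perm_sys (w m : ℕ) (hw : 2 ≤ w) (h1 : 800 * (w : ℝ) ^ 8 ≤ m + 1)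
    (h2 : 584 * (w : ℝ) ^ 8 * (m + 1) ^ 2 ≤ Real.exp ((m + 1) / (82944 * w ^ 16)))
    (h3 : 2 * (w : ℝ) ^ 8 * (m + 1) ^ 2 ≤ Fintype.card (Perm (Fin (m + 1)))) :
    ∃ t I lo p, Sys (fun x : Perm (Fin (m + 1)) => ∑ i, code x i) wt ((m + 1).choose 2) t I lo p ∧
      (1 - 1500 / w) * (Fintype.card (Perm (Fin (m + 1))) : ℝ)
        ≤ ∑ s ∈ I, ((((m + 1).choose 2 : ℕ) : ℝ) - 2 * lo s + 1) := by
  obtain ⟨N, hN⟩ : ∃ N : ℝ, N = Fintype.card (Perm (Fin (m + 1))) := ⟨_, rfl⟩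
  obtain ⟨n, hn⟩ : ∃ n : ℝ, n = m + 1 := ⟨_, rfl⟩
  have N0 : 0 < N := by rw [hN]; exact Nat.cast_pos.2 Fintype.card_pos
  have w2 : (2 : ℝ) ≤ w := by exact_mod_cast hw
  have w1 : (1 : ℝ) ≤ w := by linarith
  have w8 : (1 : ℝ) ≤ w ^ 8 := one_le_pow₀ w1
  have w28 : (w : ℝ) ^ 2 ≤ w ^ 8 := pow_le_pow_right₀ w1 (by omega)
  rw [← hn] at h1 h2 h3
  rw [← hN] at h3
  have n0 : 800 ≤ n := by linarith
  have hl : ∀ u v : Perm (Fin (m + 1)), wt u v ≠ 0 → ∑ i, code v i = ∑ i, code u i + 1 :=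
    fun u v h => (wt_ne u v h).2
  have hd : ∀ u : Perm (Fin (m + 1)), out wt u - inn wt u
      = ((m + 1).choose 2 : ℕ) - 2 * ((∑ i, code u i : ℕ) : ℝ) := fun u => by
    rw [out_wt, inn_wt, ← sum_sub_distrib, ← sum_gg _ (by
      have := code_lt u (Fin.last m); rw [Fin.val_last] at this; omega)]
    exact sum_congr rfl fun i _ => max_zero_sub_max_neg_zero_eq_self _
  have hc : ∀ u : Perm (Fin (m + 1)), inn wt u ≤ 2 * n ^ 3 ∧ out wt u ≤ 2 * n ^ 3 := fun u => by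
    have : ∑ i, |gg i (code u)| ≤ 2 * n ^ 3 := by
      refine (sum_le_card_nsmul _ _ _ fun i _ => gg_abs _ (code_mem u) i).trans ?_
      rw [card_univ, Fintype.card_fin, nsmul_eq_mul, ← hn]
      have : (m : ℝ) * (2 * n ^ 2) ≤ n * (2 * n ^ 2) := by gcongr; linarith
      linarith
    rw [out_wt, inn_wt]
    exact ⟨(sum_le_sum fun i _ => max_le (neg_le_abs _) (abs_nonneg _)).trans this,
      (sum_le_sum fun i _ => max_le (le_abs_self _) (abs_nonneg _)).trans this⟩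
  obtain ⟨A, hA⟩ : ∃ A : ℝ, ∑ u : Perm (Fin (m + 1)), out wt u = A * N :=
    ⟨(∑ u : Perm (Fin (m + 1)), out wt u) / N, by field_simp⟩
  have A1 : n ^ 3 / 36 ≤ A := by
    have := var_lb (m + 1) (Nat.cast_le (α := ℝ).1 (by push_cast; linarith))
    rw [cheb _ wt _ hl hd, hA, ← hN, Nat.cast_succ, ← hn] at this
    refine le_of_mul_le_mul_right ?_ N0
    linarith
  have A2 : A ≤ 2 * n ^ 3 := by
    have := sum_le_card_nsmul univ _ _ fun u _ => (hc u).2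
    rw [hA, card_univ, nsmul_eq_mul, ← hN, mul_comm N] at this
    exact le_of_mul_le_mul_right this N0
  have A0 : 0 < A := lt_of_lt_of_le (by positivity) A1
  obtain ⟨r, r0, hr⟩ : ∃ r : ℝ, 0 < r ∧ r ^ 2 = A := ⟨√A, Real.sqrt_pos.2 A0, Real.sq_sqrt A0.le⟩
  have n3 : n ≤ n ^ 3 := le_self_pow₀ (by linarith) (by omega)
  have r1 : 20 * w * r ≤ n ^ 2 := by
    refine (pow_le_pow_iff_left₀ (by positivity) (by positivity) two_ne_zero).1 ?_
    rw [mul_pow, hr]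
    have : (20 * w) ^ 2 * A ≤ (20 * w) ^ 2 * (2 * n ^ 3) := by gcongr
    have : (800 * w ^ 2) * n ^ 3 ≤ n * n ^ 3 := by gcongr; linarith
    linarith
  refine almost _ wt _ w r (2 * n ^ 3) wt_nonneg hl hd
    (fun u => by have := box_le _ (code_mem u); omega) (nn_sym _) (by rw [hr, hA, hN])
    (by positivity) hc hw ((pow_le_pow_iff_left₀ (by positivity) r0.le two_ne_zero).1
      (by rw [hr, show ((w : ℝ) ^ 4) ^ 2 = w ^ 8 by ring]; linarith)) ?_ ?_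
  · rw [Nat.cast_choose_two, Nat.cast_succ, ← hn]
    nlinarith
  obtain ⟨κ, hκ⟩ : ∃ κ : ℝ, κ = 1 / (1152 * w ^ 8) := ⟨_, rfl⟩
  have κ0 : 0 ≤ κ := by rw [hκ]; positivity
  have κ1 : 4 * κ ≤ 1 := by
    rw [hκ, mul_one_div, div_le_one (by positivity)]
    linarith
  have b1 := bad_le (m := m) 1 κ (A / w ^ 8) A abs_one κ0 κ1 (by
    simpa only [one_mul, ← out_wt, ← hN] using hA)
  have b2 := bad_le (m := m) (-1) κ (A / w ^ 8) A (by simp) κ0 κ1 (by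
    simp only [neg_one_mul, ← inn_wt, ← hN]
    exact hA ▸ sum_comm)
  simp only [one_mul, neg_one_mul, ← out_wt, ← inn_wt, ← hN, ← hn] at b1 b2
  have b3 : Real.exp (n * (4 * κ) ^ 2 - κ / n ^ 2 * (A / w ^ 8)) ≤ 1 / (584 * w ^ 8 * n ^ 2) := by
    refine le_trans (Real.exp_le_exp.2 (?_ : _ ≤ -(n / (82944 * w ^ 16)))) ?_
    · have : κ / n ^ 2 * (n ^ 3 / 36 / w ^ 8) ≤ κ / n ^ 2 * (A / w ^ 8) := by gcongr
      refine (sub_le_sub_left this _).trans (le_of_eq ?_)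
      rw [hκ]
      field_simp
      ring
    · rw [Real.exp_neg, inv_eq_one_div]
      exact one_div_le_one_div_of_le (by positivity) h2
  rw [hr, ← hN]
  have b4 : ((univ.filter fun u : Perm (Fin (m + 1)) => ¬ (|inn wt u - A| ≤ A / w ^ 8 ∧
      |out wt u - A| ≤ A / w ^ 8)).card : ℝ) ≤ 4 * N * (1 / (584 * w ^ 8 * n ^ 2)) := by
    refine le_trans ?_ ((add_le_add b1 b2).trans (by nlinarith))
    rw [← sum_add_distrib, card_filter, Nat.cast_sum]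
    refine sum_le_sum fun u _ => ?_
    by_cases c1 : |inn wt u - A| ≤ A / w ^ 8 <;> by_cases c2 : |out wt u - A| ≤ A / w ^ 8 <;>
      simp [c1, c2]
  have b5 : 2 * n ^ 3 / A + 1 ≤ 73 := by
    have : 2 * n ^ 3 / A ≤ 72 := by rw [div_le_iff₀ A0]; linarith
    linarith
  have b6 := mul_le_mul b5 b4 (Nat.cast_nonneg _) (by norm_num)
  have b7 : 1 ≤ N / (2 * w ^ 8 * n ^ 2) := (one_le_div (by positivity)).2 h3
  have b8 : 73 * (4 * N * (1 / (584 * w ^ 8 * n ^ 2))) = N / (2 * w ^ 8 * n ^ 2) := by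
    field_simp; ring
  have b9 : N / (n ^ 2 * w ^ 8) ≤ N / (r * w ^ 8) := by
    gcongr
    nlinarith
  have b10 : N / (n ^ 2 * w ^ 8) = 2 * (N / (2 * w ^ 8 * n ^ 2)) := by field_simp
  linarith

end Pool.Agent.Lib.MP_4ca2df_co
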