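import Pool.Agent.Lib.MP_4ca2df_co.H26Path

/-!
One extension stage: disjoint paths through a set `B` of chains, below and above.
-/

namespace Pool.Agent.Lib.MP_4ca2df_co

open Finset
open scoped Classical

variable {V : Type*} [Fintype V]

/-- weight entering a vertex -/
noncomputable def inn (ω : V → V → ℝ) (v : V) : ℝ := ∑ u, ω u v

/-- weight leaving a vertex -/
noncomputable def out (ω : V → V → ℝ) (u : V) : ℝ := ∑ v, ω u v

/-- weight leaving a level -/
noncomputable def OO (lev : V → ℕ) (ω : V → V → ℝ) (k : ℕ) : ℝ :=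
  ∑ u ∈ univ.filter (fun u => lev u = k), out ω u

theorem in_eq_out (lev : V → ℕ) (ω : V → V → ℝ) (hl : ∀ u v, ω u v ≠ 0 → lev v = lev u + 1)
    (k : ℕ) : ∑ v ∈ univ.filter (fun v => lev v = k + 1), inn ω v = OO lev ω k := by
  unfold OO inn out
  rw [sum_filter, sum_filter]
  have e1 : ∀ v, (if lev v = k + 1 then ∑ u, ω u v else 0)
      = ∑ u, if lev u = k then ω u v else 0 := fun v => by
    split_ifs with h
    · refine sum_congr rfl fun u _ => ?_
      split_ifs with h'
      · rfl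
      · by_contra hc
        have := hl _ _ hc
        omega
    · refine (sum_eq_zero fun u _ => ?_).symm
      split_ifs with h'
      · by_contra hc
        have := hl _ _ hc
        omega
      · rfl
  rw [sum_congr rfl fun v _ => e1 v, sum_comm]
  refine sum_congr rfl fun u _ => ?_
  split_ifs <;> simp

theorem sum_inj_le (A : Finset V) (K : V → V) (hK : Set.InjOn K A) (f : V → ℝ) (hf : ∀ u, 0 ≤ f u) :
    ∑ u ∈ A, f (K u) ≤ ∑ u, f u := by
  rw [← sum_image (g := K) (f := f) hK]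
  exact sum_le_sum_of_subset_of_nonneg (subset_univ _) fun _ _ _ => hf _

theorem net (lev : V → ℕ) (ω : V → V → ℝ) (T : V → Prop) (a b c δ : ℝ)
    (h0 : ∀ u v, 0 ≤ ω u v) (hl : ∀ u v, ω u v ≠ 0 → lev v = lev u + 1)
    (hb : 0 < b) (hab : a ≤ b) (hδ : 0 ≤ δ)
    (hT : ∀ u, T u → a ≤ inn ω u ∧ inn ω u ≤ b ∧ a ≤ out ω u ∧ out ω u ≤ b)
    (hc : ∀ u, inn ω u ≤ c ∧ out ω u ≤ c)
    (t t' L L' : ℕ) (hL : 1 ≤ L) (hLt : L ≤ t) (htt : t ≤ t')
    (μ : ℕ → ℝ) (hμ0 : ∀ k, 0 ≤ μ k) (hμ1 : ∀ k, μ k ≤ 1 / b) (hμ2 : μ (t - L) = 1 / b)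
    (hμ3 : μ (t - 1) ≤ μ t')
    (hμ4 : ∀ u, T u → (t - L ≤ lev u ∧ lev u < t ∨ t' < lev u ∧ lev u < t' + L') →
      μ (lev u - 1) * inn ω u ≤ μ (lev u) * out ω u + δ)
    (B : Finset V) (κ : V → V) (hB : ∀ u ∈ B, lev u = t ∧ lev (κ u) = t' ∧ T u ∧ T (κ u))
    (hκ : Set.InjOn κ B) :
    ∃ (I : Finset V) (P : V → ℕ → V),
      (∀ s ∈ I, (∀ j ≤ L, lev (P s j) = t - L + j) ∧ P s L ∈ B ∧
        (∀ j, L < j → j ≤ L + L' → lev (P s j) = t' + (j - L)) ∧
        (∀ j < L + L', ω (if j = L then κ (P s j) else P s j) (P s (j + 1)) ≠ 0)) ∧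
      (∀ s ∈ I, ∀ s' ∈ I, ∀ j ≤ L + L', P s j = P s' j → s = s') ∧
      (OO lev ω (t - L) - OO lev ω (t - 1)) / b + (2 * a / b - 1) * B.card
        - 2 * c * (univ.filter fun u => ¬ T u).card / b - δ * Fintype.card V ≤ I.card + 1 := by
  obtain ⟨ρ, hρ⟩ : ∃ ρ : V → ℕ, ∀ u, ρ u = if t - L ≤ lev u ∧ lev u ≤ t then lev u - (t - L)
      else if t' < lev u ∧ lev u ≤ t' + L' then lev u - t' + L else L + L' + 1 := ⟨_, fun _ => rfl⟩
  obtain ⟨Act, hA⟩ : ∃ Act : V → Prop, ∀ u, Act u ↔ T u ∧ (lev u = t → u ∈ B) ∧ ρ u ≤ L + L' :=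
    ⟨_, fun _ => Iff.rfl⟩
  obtain ⟨K, hK⟩ : ∃ K : V → V, ∀ u, K u = if lev u = t then κ u else u := ⟨_, fun _ => rfl⟩
  have io0 : ∀ u, 0 ≤ inn ω u ∧ 0 ≤ out ω u := fun u =>
    ⟨sum_nonneg fun _ _ => h0 _ _, sum_nonneg fun _ _ => h0 _ _⟩
  have K1 : ∀ u, Act u → T (K u) := fun u h => by
    rw [hK]
    split_ifs with h'
    exacts [(hB u (((hA u).1 h).2.1 h')).2.2.2, ((hA u).1 h).1]
  have K0 : ∀ u, Act u → lev (K u) = if lev u = t then t' else lev u := fun u h => by
    rw [hK]
    split_ifs with h'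
    exacts [(hB u (((hA u).1 h).2.1 h')).2.1, rfl]
  have K2 : Set.InjOn K (univ.filter Act) := by
    intro u hu u' hu' e
    have hu := (mem_filter.1 (mem_coe.1 hu)).2
    have hu' := (mem_filter.1 (mem_coe.1 hu')).2
    have a1 := K0 u hu
    have a2 := K0 u' hu'
    have a3 := ((hA u).1 hu).2.2
    have a4 := ((hA u').1 hu').2.2
    rw [e] at a1
    rw [hρ] at a3 a4
    rw [hK, hK] at e
    by_cases c1 : lev u = t <;> by_cases c2 : lev u' = t
    · rw [if_pos c1, if_pos c2] at e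
      exact hκ (((hA u).1 hu).2.1 c1) (((hA u').1 hu').2.1 c2) e
    · exfalso; split_ifs at a1 a2 a3 a4 <;> omega
    · exfalso; split_ifs at a1 a2 a3 a4 <;> omega
    · rwa [if_neg c1, if_neg c2] at e
  have K3 : ∀ u v, Act u → ρ u ≠ L + L' → ω (K u) v ≠ 0 → ρ v = ρ u + 1 := by
    intro u v h h1 h2
    have a1 := hl _ _ h2
    have a2 := K0 u h
    have a3 := ((hA u).1 h).2.2
    rw [hρ] at h1 a3
    rw [hρ, hρ]
    split_ifs at a2 h1 a3 ⊢ <;> omega
  obtain ⟨x, hx⟩ : ∃ x : V → V → ℝ, ∀ u v, x u v = if Act u ∧ Act v ∧ ρ v = ρ u + 1 then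
      μ (lev (K u)) * ω (K u) v else 0 := ⟨_, fun _ _ => rfl⟩
  obtain ⟨G, hG⟩ : ∃ G : V → ℝ, ∀ u, G u = if Act u then max (μ (lev (K u)) * out ω (K u))
      (μ (lev u - 1) * inn ω u) else 0 := ⟨_, fun _ => rfl⟩
  have x0 : ∀ u v, 0 ≤ x u v := fun u v => by
    rw [hx]
    split_ifs
    exacts [mul_nonneg (hμ0 _) (h0 _ _), le_rfl]
  have x1 : ∀ u v, x u v ≠ 0 → Act u ∧ Act v ∧ ρ v = ρ u + 1 ∧ ω (K u) v ≠ 0 := fun u v h => by
    rw [hx] at h
    split_ifs at h with h'
    exacts [⟨h'.1, h'.2.1, h'.2.2, right_ne_zero_of_mul h⟩, absurd rfl h]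
  have m1 : ∀ k (y : ℝ), 0 ≤ y → μ k * y ≤ y / b := fun k y hy => by
    rw [div_eq_mul_one_div, mul_comm]
    exact mul_le_mul_of_nonneg_left (hμ1 k) hy
  obtain ⟨I, P, p1, p2, p3, p4⟩ := paths ρ (L + L') (by omega) x G x0 (fun u v h => (x1 u v h).2.2.1)
    (fun u => by
      rw [hG]
      split_ifs with h
      · refine le_trans ?_ (le_max_left _ _)
        rw [out, mul_sum]
        refine sum_le_sum fun v _ => ?_
        rw [hx]
        split_ifs
        exacts [le_rfl, mul_nonneg (hμ0 _) (h0 _ _)]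
      · exact le_of_eq (sum_eq_zero fun v _ => by rw [hx, if_neg fun h' => h h'.1]))
    (fun v => by
      rw [hG]
      split_ifs with h
      · refine le_trans ?_ (le_max_right _ _)
        refine le_trans ?_ (mul_le_mul_of_nonneg_left (sum_inj_le _ K K2 (fun u => ω u v)
          fun u => h0 u v) (hμ0 _))
        rw [mul_sum, sum_filter]
        refine sum_le_sum fun u _ => ?_
        by_cases c : x u v = 0
        · rw [c]
          split_ifs
          exacts [mul_nonneg (hμ0 _) (h0 _ _), le_rfl]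
        · have a1 := x1 u v c
          rw [if_pos a1.1, hx, if_pos ⟨a1.1, a1.2.1, a1.2.2.1⟩, hl _ _ a1.2.2.2,
            Nat.add_sub_cancel]
      · exact le_of_eq (sum_eq_zero fun u _ => by rw [hx, if_neg fun h' => h h'.2.1]))
    (fun u => by
      rw [hG]
      split_ifs with h
      · refine max_le ((m1 _ _ (io0 _).2).trans ?_) ((m1 _ _ (io0 _).1).trans ?_)
        · exact (div_le_one hb).2 (hT _ (K1 u h)).2.2.2
        · exact (div_le_one hb).2 (hT _ ((hA u).1 h).1).2.1
      · exact zero_le_one)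
  refine ⟨I, P, fun s hs => ?_, p3, le_trans ?_ p4⟩
  · have q1 : ∀ j ≤ L, lev (P s j) = t - L + j := fun j hj => by
      have := p1 s hs j (by omega)
      rw [hρ] at this
      split_ifs at this <;> omega
    have q2 : ∀ j, L < j → j ≤ L + L' → lev (P s j) = t' + (j - L) := fun j hj hj' => by
      have := p1 s hs j hj'
      rw [hρ] at this
      split_ifs at this <;> omega
    refine ⟨q1, ?_, q2, fun j hj => ?_⟩
    · have := (x1 _ _ (p2 s hs (L - 1) (by omega))).2.1
      rw [Nat.sub_add_cancel hL] at this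
      exact ((hA _).1 this).2.1 (by rw [q1 L le_rfl]; omega)
    · have := (x1 _ _ (p2 s hs j hj)).2.2.2
      rw [hK] at this
      convert this using 3
      rcases le_or_gt j L with c | c
      · rw [q1 j c]; omega
      · rw [q2 j c hj.le]; omega
  have bad : ∀ (f : V → ℝ), (∀ u, f u ≤ c) → ∑ u, (if T u then 0 else f u)
      ≤ c * (univ.filter fun u => ¬ T u).card := fun f hf => by
    rw [card_eq_sum_ones, Nat.cast_sum, mul_sum, sum_filter]
    refine sum_le_sum fun u _ => ?_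
    by_cases c : T u <;> simp [c, hf]
  have s1 : (OO lev ω (t - L) - c * (univ.filter fun u => ¬ T u).card) / b
      ≤ ∑ u ∈ univ.filter (fun u => ρ u = 0), G u := by
    refine le_trans (div_le_div_of_nonneg_right (sub_le_sub_left (bad (out ω) fun u => (hc u).2) _)
      hb.le) ?_
    rw [OO, sum_filter, sum_filter, ← sum_sub_distrib, sum_div]
    refine sum_le_sum fun u _ => ?_
    have G0 : 0 ≤ if ρ u = 0 then G u else 0 := by
      rw [hG]
      split_ifs
      exacts [le_max_of_le_left (mul_nonneg (hμ0 _) (io0 _).2), le_rfl, le_rfl]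
    by_cases c1 : T u
    · by_cases c2 : lev u = t - L
      · have r0 : ρ u = 0 := by rw [hρ]; split_ifs <;> omega
        have a0 : Act u := (hA u).2 ⟨c1, fun h => by omega, by omega⟩
        have k0 : K u = u := by rw [hK, if_neg (by omega)]
        rw [if_pos c1, if_pos c2, if_pos r0, hG, if_pos a0, k0, c2, hμ2]
        refine le_max_of_le_left (le_of_eq (by ring))
      · rw [if_pos c1, if_neg c2]
        simpa using G0
    · refine le_trans (div_nonpos_of_nonpos_of_nonneg ?_ hb.le) G0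
      rw [if_neg c1]
      split_ifs
      · simp
      · simpa using (io0 u).2
  obtain ⟨Z, hZ⟩ : ∃ Z : V → Prop, ∀ v, Z v ↔ ¬ T v ∨ (lev v = t ∧ v ∉ B) := ⟨_, fun _ => Iff.rfl⟩
  have ab : 0 ≤ 1 - a / b := sub_nonneg.2 ((div_le_one hb).2 hab)
  have s2 : ∀ u, (if ρ u ≠ L + L' then G u - ∑ v, x u v else 0) ≤ (if u ∈ B then 1 - a / b else 0)
      + δ + (if Act u then (∑ v, if Z v then ω (K u) v else 0) / b else 0) := by
    intro u
    have n1 : 0 ≤ (if u ∈ B then 1 - a / b else 0) := by split_ifs; exacts [ab, le_rfl]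
    have n2 : 0 ≤ (∑ v, if Z v then ω (K u) v else 0) / b :=
      div_nonneg (sum_nonneg fun v _ => by split_ifs; exacts [h0 _ _, le_rfl]) hb.le
    by_cases c1 : Act u
    swap
    · have : ∑ v, x u v = 0 := sum_eq_zero fun v _ => by rw [hx, if_neg fun h' => c1 h'.1]
      rw [hG, if_neg c1, if_neg c1, this]
      simp only [sub_zero, ite_self]
      linarith
    rw [if_pos c1]
    by_cases c2 : ρ u = L + L'
    · rw [if_neg (not_not.2 c2)]
      linarith
    rw [if_pos c2]
    have a1 : μ (lev (K u)) * out ω (K u) - ∑ v, x u v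
        ≤ (∑ v, if Z v then ω (K u) v else 0) / b := by
      rw [out, mul_sum, ← sum_sub_distrib, sum_div]
      refine sum_le_sum fun v _ => ?_
      by_cases c3 : Z v
      · rw [if_pos c3]
        linarith [m1 (lev (K u)) _ (h0 (K u) v), x0 u v]
      rw [if_neg c3, zero_div]
      by_cases c4 : ω (K u) v = 0
      · rw [c4]
        linarith [x0 u v]
      have a2 := K3 u v c1 c2 c4
      have a3 := ((hA u).1 c1).2.2
      rw [hZ] at c3
      push Not at c3
      rw [hx, if_pos ⟨c1, (hA v).2 ⟨c3.1, c3.2, by omega⟩, a2⟩, sub_self]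
    have a2 : G u ≤ μ (lev (K u)) * out ω (K u) + ((if u ∈ B then 1 - a / b else 0) + δ) := by
      rw [hG, if_pos c1]
      refine max_le (by linarith) ?_
      by_cases c3 : lev u = t
      · have hu := ((hA u).1 c1).2.1 c3
        rw [K0 u c1, if_pos c3, if_pos hu, c3]
        have b1 := hT _ ((hA u).1 c1).1
        have b2 := hT _ (K1 u c1)
        have b3 := mul_le_mul hμ3 b1.2.1 (io0 u).1 (hμ0 _)
        have b4 := mul_le_mul_of_nonneg_left b2.2.2.1 (hμ0 t')
        have b5 := m1 t' (b - a) (by linarith)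
        rw [sub_div, div_self hb.ne'] at b5
        nlinarith
      · have a3 := ((hA u).1 c1).2.2
        have a4 : K u = u := by rw [hK, if_neg c3]
        rw [hρ] at a3 c2
        have := hμ4 u ((hA u).1 c1).1 (by split_ifs at a3 c2 <;> omega)
        rw [a4]
        linarith
    linarith
  have s3 : ∑ u, (if Act u then (∑ v, if Z v then ω (K u) v else 0) / b else 0)
      ≤ (c * (univ.filter fun u => ¬ T u).card + OO lev ω (t - 1) - a * B.card) / b := by
    rw [← sum_filter, ← sum_div]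
    refine div_le_div_of_nonneg_right ((sum_inj_le _ K K2 (fun u => ∑ v, if Z v then ω u v else 0)
      fun u => sum_nonneg fun v _ => by split_ifs; exacts [h0 _ _, le_rfl]).trans ?_) hb.le
    have e : a * B.card = ∑ v, if v ∈ B then a else 0 := by
      rw [← sum_filter, filter_mem_eq_inter, univ_inter, sum_const, nsmul_eq_mul, mul_comm]
    rw [sum_comm, ← in_eq_out lev ω hl, Nat.sub_add_cancel (by omega), sum_filter, e]
    refine le_trans ?_ (sub_le_sub_right (add_le_add_left (bad (inn ω) fun u => (hc u).1) _) _)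
    rw [← sum_add_distrib, ← sum_sub_distrib]
    refine sum_le_sum fun v _ => ?_
    have e2 : ∑ u, (if Z v then ω u v else 0) = if Z v then inn ω v else 0 := by
      split_ifs <;> simp [inn]
    rw [e2]
    have := (io0 v).1
    by_cases c1 : v ∈ B
    · have b1 := hB v c1
      have b2 : ¬ Z v := by rw [hZ]; tauto
      rw [if_neg b2, if_pos b1.2.2.1, if_pos b1.1, if_pos c1]
      linarith [(hT v b1.2.2.1).1]
    · rw [if_neg c1]
      have b2 := hZ v
      split_ifs <;> first | linarith | tauto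
  have s4 := sum_le_sum fun u (_ : u ∈ univ) => s2 u
  rw [← sum_filter, sum_add_distrib, sum_add_distrib, ← sum_filter (fun u => u ∈ B),
    filter_mem_eq_inter, univ_inter, sum_const, sum_const, nsmul_eq_mul, nsmul_eq_mul,
    card_univ] at s4
  refine le_trans (le_of_eq ?_) (sub_le_sub s1 (s4.trans (add_le_add_right s3 _)))
  field_simp
  ring

end Pool.Agent.Lib.MP_4ca2df_co
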