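import Mathlib

/-!
Disjoint paths in a layered network from a fractional flow.
-/

namespace Pool.Agent.Lib.MP_4ca2df_co

open Finset
open scoped Classical

theorem hall_def {N : Type*} [Fintype N] (P : N → Prop) (y : N → N → ℝ) (h0 : ∀ u v, 0 ≤ y u v)
    (hcol : ∀ v, ∑ u, y u v ≤ 1) (hrow : ∀ u, ∑ v, y u v ≤ 1) (d : ℕ)
    (hd : ∑ u ∈ univ.filter P, (1 - ∑ v, y u v) ≤ d) :
    ∃ f : {u // P u} → N ⊕ Fin d, Function.Injective f ∧ ∀ u v, f u = Sum.inl v → y u v ≠ 0 := by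
  obtain ⟨f, h1, h2⟩ := (all_card_le_biUnion_card_iff_existsInjective'
    (fun u : {u // P u} => (univ.filter (fun v => y u v ≠ 0)).disjSum (univ : Finset (Fin d)))).1 (by
      intro S
      rcases S.eq_empty_or_nonempty with rfl | ⟨u0, hu0⟩
      · simp
      have e : S.biUnion (fun u : {u // P u} => (univ.filter (fun v => y u v ≠ 0)).disjSum
          (univ : Finset (Fin d))) = (S.biUnion fun u => univ.filter (fun v => y u v ≠ 0)).disjSum
          (univ : Finset (Fin d)) := by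
        ext (v | k)
        · simp
        · simpa using ⟨u0, u0.2, hu0⟩
      rw [e, card_disjSum, card_univ, Fintype.card_fin]
      have a1 : ∑ u ∈ S, ∑ v, y u v
          ≤ ((S.biUnion fun u => univ.filter (fun v => y u v ≠ 0)).card : ℝ) := by
        rw [card_eq_sum_ones, Nat.cast_sum, sum_comm, ← sum_subset (subset_univ
          (S.biUnion fun u => univ.filter (fun v => y u v ≠ 0)))]
        · refine sum_le_sum fun v _ => le_trans ?_ ((hcol v).trans (by simp))
          refine le_of_eq_of_le (sum_map S (Function.Embedding.subtype P) (fun u => y u v)).symm ?_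
          exact sum_le_sum_of_subset_of_nonneg (subset_univ _) fun _ _ _ => h0 _ _
        · intro v _ hv
          refine sum_eq_zero fun u hu => ?_
          by_contra hc
          exact hv (mem_biUnion.2 ⟨u, hu, mem_filter.2 ⟨mem_univ _, hc⟩⟩)
      have a2 : ∑ u ∈ S, (1 - ∑ v, y u v) ≤ ∑ u ∈ univ.filter P, (1 - ∑ v, y u v) := by
        refine le_of_eq_of_le
          (sum_map S (Function.Embedding.subtype P) (fun u => 1 - ∑ v, y u v)).symm ?_
        refine sum_le_sum_of_subset_of_nonneg (fun u hu => ?_) fun u _ _ => sub_nonneg.2 (hrow u)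
        obtain ⟨w, -, rfl⟩ := mem_map.1 hu
        exact mem_filter.2 ⟨mem_univ _, w.2⟩
      rw [sum_sub_distrib, sum_const, nsmul_eq_mul, mul_one] at a2
      have : (S.card : ℝ) ≤ ((S.biUnion fun u => univ.filter (fun v => y u v ≠ 0)).card : ℝ) + d := by
        linarith
      exact_mod_cast this)
  refine ⟨f, h1, fun u v h => ?_⟩
  have := h2 u
  rw [h, inl_mem_disjSum] at this
  exact (mem_filter.1 this).2

theorem paths {N : Type*} [Fintype N] (ρ : N → ℕ) (R : ℕ) (hR : 1 ≤ R) (x : N → N → ℝ) (G : N → ℝ)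
    (h0 : ∀ u v, 0 ≤ x u v) (hs : ∀ u v, x u v ≠ 0 → ρ v = ρ u + 1)
    (hout : ∀ u, ∑ v, x u v ≤ G u) (hin : ∀ v, ∑ u, x u v ≤ G v) (hG : ∀ u, G u ≤ 1) :
    ∃ (I : Finset N) (p : N → ℕ → N), (∀ s ∈ I, ∀ j ≤ R, ρ (p s j) = j) ∧
      (∀ s ∈ I, ∀ j < R, x (p s j) (p s (j + 1)) ≠ 0) ∧
      (∀ s ∈ I, ∀ s' ∈ I, ∀ j ≤ R, p s j = p s' j → s = s') ∧
      ∑ u ∈ univ.filter (fun u => ρ u = 0), G u
        - ∑ u ∈ univ.filter (fun u => ρ u ≠ R), (G u - ∑ v, x u v) ≤ I.card + 1 := by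
  obtain ⟨δ, hδ⟩ : ∃ δ, δ = ∑ u ∈ univ.filter (fun u => ρ u = 0), (1 - G u)
    + ∑ u ∈ univ.filter (fun u => ρ u ≠ R), (G u - ∑ v, x u v) := ⟨_, rfl⟩
  have hδ0 : 0 ≤ δ := by
    rw [hδ]
    exact add_nonneg (sum_nonneg fun u _ => sub_nonneg.2 (hG u))
      (sum_nonneg fun u _ => sub_nonneg.2 (hout u))
  have hrow : ∀ u, ∑ v, (x u v + if u = v ∧ ρ u ≠ 0 then 1 - G u else 0)
      = ∑ v, x u v + if ρ u ≠ 0 then 1 - G u else 0 := fun u => by
    rw [sum_add_distrib]
    congr 1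
    by_cases c : ρ u ≠ 0 <;> simp [c]
  obtain ⟨f, hf, hf2⟩ := hall_def (fun u => ρ u ≠ R)
    (fun u v => x u v + if u = v ∧ ρ u ≠ 0 then 1 - G u else 0)
    (fun u v => add_nonneg (h0 u v) (by split_ifs; exacts [sub_nonneg.2 (hG u), le_rfl]))
    (fun v => by
      rw [sum_add_distrib]
      have : ∑ u, (if u = v ∧ ρ u ≠ 0 then 1 - G u else 0) ≤ 1 - G v := by
        rw [sum_eq_single v (fun u _ h => by simp [h]) (by simp)]
        split_ifs
        exacts [le_rfl, sub_nonneg.2 (hG v)]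
      linarith [hin v])
    (fun u => by
      rw [hrow]
      split_ifs <;> linarith [hout u, hG u]) ⌈δ⌉₊ (by
      refine le_trans (le_of_eq ?_) (Nat.le_ceil δ)
      have e : univ.filter (fun u => ρ u = 0) = (univ.filter (fun u => ρ u ≠ R)).filter
          (fun u => ρ u = 0) := by
        ext u; simp only [mem_filter, mem_univ, true_and]; omega
      rw [hδ, e, sum_filter (fun u => ρ u = 0), ← sum_add_distrib]
      refine sum_congr (by congr) fun u _ => ?_
      rw [hrow]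
      by_cases c : ρ u = 0
      · simp [c]
      · simp only [c, ne_eq, not_false_eq_true, if_true, if_false]
        ring)
  obtain ⟨st, hst⟩ : ∃ st : N → N, ∀ u (h : ρ u ≠ R), f ⟨u, h⟩ = Sum.inl (st u) ∨
      (st u = u ∧ ∃ k, f ⟨u, h⟩ = Sum.inr k) := by
    refine ⟨fun u => if h : ρ u ≠ R then Sum.elim id (fun _ => u) (f ⟨u, h⟩) else u, fun u h => ?_⟩
    simp only [dif_pos h]
    rcases f ⟨u, h⟩ with v | k
    · exact Or.inl rfl
    · exact Or.inr ⟨rfl, k, rfl⟩
  obtain ⟨Gd, hGd⟩ : ∃ Gd : N → ℕ → Prop, ∀ s j, Gd s j ↔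
      ρ s = 0 ∧ ∀ i < j, x (st^[i] s) (st^[i + 1] s) ≠ 0 := ⟨_, fun _ _ => Iff.rfl⟩
  have g0 : ∀ s j, Gd s (j + 1) → Gd s j := fun s j h =>
    (hGd _ _).2 ⟨((hGd _ _).1 h).1, fun i hi => ((hGd _ _).1 h).2 i (by omega)⟩
  have g1 : ∀ s j, Gd s j → ρ (st^[j] s) = j := by
    intro s j
    induction j with
    | zero => exact fun h => ((hGd _ _).1 h).1
    | succ j ih => exact fun h => by rw [hs _ _ (((hGd _ _).1 h).2 j (by omega)), ih (g0 _ _ h)]
  have g2 : ∀ s j, Gd s (j + 1) → ∀ h, f ⟨st^[j] s, h⟩ = Sum.inl (st^[j + 1] s) := by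
    intro s j h h'
    have a1 := g1 s _ h
    have a2 := g1 s _ (g0 _ _ h)
    rw [Function.iterate_succ_apply'] at a1 ⊢
    refine (hst _ h').resolve_right fun a => ?_
    rw [a.1] at a1
    omega
  have g3 : ∀ s s' j, j ≤ R → Gd s j → Gd s' j → st^[j] s = st^[j] s' → s = s' := by
    intro s s' j
    induction j with
    | zero => exact fun _ _ _ h => h
    | succ j ih =>
      intro hj h h' e
      have a1 : ρ (st^[j] s) ≠ R := by rw [g1 s _ (g0 _ _ h)]; omega
      have a2 : ρ (st^[j] s') ≠ R := by rw [g1 s' _ (g0 _ _ h')]; omega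
      refine ih (by omega) (g0 _ _ h) (g0 _ _ h') ?_
      exact congrArg Subtype.val (hf ((g2 s j h a1).trans (e ▸ (g2 s' j h' a2).symm)))
  have g4 : ∀ s, ρ s = 0 → ¬ Gd s R → ∃ k j h, j ≤ R ∧ Gd s j ∧ f ⟨st^[j] s, h⟩ = Sum.inr k := by
    intro s h1 h2
    obtain ⟨j, hj, a1, a2⟩ : ∃ j < R, Gd s j ∧ ¬ Gd s (j + 1) := by
      by_contra hc
      push Not at hc
      have : ∀ j ≤ R, Gd s j := by
        intro j
        induction j with
        | zero => exact fun _ => (hGd _ _).2 ⟨h1, by simp⟩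
        | succ j ih => exact fun h => hc j (by omega) (ih (by omega))
      exact h2 (this R le_rfl)
    have a3 : ρ (st^[j] s) ≠ R := by rw [g1 s _ a1]; omega
    rcases hst _ a3 with a4 | ⟨-, k, a4⟩
    · exfalso
      have a5 := hf2 _ _ a4
      have a6 : x (st^[j] s) (st (st^[j] s)) = 0 := by
        by_contra hc
        refine a2 ((hGd _ _).2 ⟨h1, fun i hi => ?_⟩)
        rcases (Nat.lt_succ_iff.1 hi).eq_or_lt with rfl | hi'
        · rwa [Function.iterate_succ_apply']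
        · exact ((hGd _ _).1 a1).2 i hi'
      simp only [a6, zero_add, ne_eq, ite_eq_right_iff, Classical.not_imp] at a5
      obtain ⟨⟨b1, b2⟩, -⟩ := a5
      rw [g1 s _ a1] at b2
      obtain ⟨j, rfl⟩ : ∃ i, j = i + 1 := ⟨j - 1, by omega⟩
      have b3 : ρ (st^[j] s) ≠ R := by rw [g1 s _ (g0 _ _ a1)]; omega
      have b4 := congrArg (fun u => ρ u.1) (hf ((g2 s j a1 b3).trans
        ((congrArg Sum.inl b1).trans a4.symm)))
      simp only [g1 s _ a1, g1 s _ (g0 _ _ a1)] at b4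
      omega
    · exact ⟨k, j, a3, hj.le, a1, a4⟩
  have g5 : ∀ s ∈ univ.filter (fun s => Gd s R), ∀ j ≤ R, Gd s j := fun s h j hj =>
    (hGd _ _).2 ⟨((hGd _ _).1 (mem_filter.1 h).2).1, fun i hi =>
      ((hGd _ _).1 (mem_filter.1 h).2).2 i (by omega)⟩
  refine ⟨univ.filter (fun s => Gd s R), fun s j => st^[j] s, fun s h j hj => g1 s j (g5 s h j hj),
    fun s h => ((hGd _ _).1 (mem_filter.1 h).2).2,
    fun s h s' h' j hj e => g3 s s' j hj (g5 s h j hj) (g5 s' h' j hj) e, ?_⟩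
  choose k j h hj hg hk using g4
  have c1 : (univ.filter (fun s => ρ s = 0 ∧ ¬ Gd s R)).card ≤ ⌈δ⌉₊ := by
    rw [← Fintype.card_fin ⌈δ⌉₊, ← Fintype.card_subtype]
    refine Fintype.card_le_of_injective (fun s => k s.1 s.2.1 s.2.2) fun s s' e => ?_
    have a1 := congrArg Subtype.val (hf ((hk s.1 s.2.1 s.2.2).trans
      ((congrArg Sum.inr e).trans (hk s'.1 s'.2.1 s'.2.2).symm)))
    have a2 := congrArg ρ a1
    simp only [g1 _ _ (hg _ _ _)] at a2
    refine Subtype.ext (g3 _ _ _ (hj _ s.2.1 s.2.2) (hg _ _ _) (a2 ▸ hg _ _ _) ?_)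
    simp only at a1
    rw [a1, a2]
  have c2 : (univ.filter (fun s => ρ s = 0)).card ≤ (univ.filter (fun s => Gd s R)).card
      + (univ.filter (fun s => ρ s = 0 ∧ ¬ Gd s R)).card := by
    refine le_trans (card_le_card fun s h => ?_) (card_union_le _ _)
    simp only [mem_union, mem_filter, mem_univ, true_and] at h ⊢
    tauto
  have c3 := Nat.ceil_lt_add_one hδ0
  have c4 : ((univ.filter (fun s => ρ s = 0)).card : ℝ) ≤ (univ.filter (fun s => Gd s R)).card
      + (⌈δ⌉₊ : ℕ) := by exact_mod_cast c2.trans (Nat.add_le_add_left c1 _)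
  rw [sum_sub_distrib, sum_const, nsmul_eq_mul, mul_one] at hδ
  linarith

end Pool.Agent.Lib.MP_4ca2df_co
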