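import Pool.Agent.Lib.MP_4ca2df_co.H26Almost
import Pool.Agent.Lib.MP_4ca2df_co.H26Conc

/-!
The Lehmer code and an edge weighting of the permutahedron with `out - in = l - 2 inv`.
-/

namespace Pool.Agent.Lib.MP_4ca2df_co

open Finset Fintype Equiv
open scoped Classical

/-- Lehmer code -/
def code {n : ℕ} (x : Perm (Fin n)) (i : Fin n) : ℕ := (univ.filter fun j => i < j ∧ x j < x i).card

/-- the box of all codes -/
def box (n : ℕ) : Finset (Fin n → ℕ) := piFinset fun i : Fin n => range (n - i)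

theorem inv_eq {n : ℕ} (x : Perm (Fin n)) :
    (univ.filter fun p : Fin n × Fin n => p.1 < p.2 ∧ x p.2 < x p.1).card = ∑ i, code x i := by
  simp only [code, card_filter]
  exact Fintype.sum_prod_type' fun i j => if i < j ∧ x j < x i then 1 else 0

theorem code_lt {n : ℕ} (x : Perm (Fin n)) (i : Fin n) : code x i < n - i := by
  have : code x i ≤ (Ioi i).card := card_le_card fun j hj => mem_Ioi.2 (mem_filter.1 hj).2.1
  rw [Fin.card_Ioi] at this
  omega

theorem code_mul {n : ℕ} (x s : Perm (Fin n)) (i : Fin n) :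
    code (x * s) i = (univ.filter fun k => i < s.symm k ∧ x k < x (s i)).card :=
  card_equiv s fun k => by rw [mem_filter, mem_filter]; simp

theorem code_inj {n : ℕ} : Function.Injective (code : Perm (Fin n) → _) := by
  have e : ∀ (x : Perm (Fin n)) i,
      code x i = (univ.filter fun v => v < x i ∧ ∀ k < i, x k ≠ v).card := fun x i => by
    refine card_equiv x fun j => ?_
    simp only [mem_filter, mem_univ, true_and, ne_eq, EmbeddingLike.apply_eq_iff_eq]
    refine ⟨fun h => ⟨h.2, fun k hk e => absurd (e ▸ hk) h.1.le.not_gt⟩, fun h => ⟨?_, h.1⟩⟩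
    rcases lt_trichotomy i j with c | rfl | c
    exacts [c, absurd h.1 (lt_irrefl _), absurd rfl (h.2 j c)]
  have key : ∀ (x y : Perm (Fin n)) i, (∀ k < i, x k = y k) → x i < y i → code x i < code y i := by
    intro x y i h1 h2
    rw [e, e]
    refine card_lt_card ⟨fun v hv => ?_, fun h => ?_⟩
    · simp only [mem_filter, mem_univ, true_and] at hv ⊢
      exact ⟨hv.1.trans h2, fun k hk => h1 k hk ▸ hv.2 k hk⟩
    · have := h (mem_filter.2 ⟨mem_univ (x i), h2, fun k hk e =>
        hk.ne (x.injective ((h1 k hk).trans e))⟩)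
      exact lt_irrefl _ (mem_filter.1 this).2.1
  intro x y h
  ext1 i
  induction i using WellFoundedLT.induction with
  | ind i ih =>
    rcases lt_trichotomy (x i) (y i) with c | c | c
    · exact absurd (congrFun h i) (key x y i ih c).ne
    · exact c
    · exact absurd (congrFun h i) (key y x i (fun k hk => (ih k hk).symm) c).ne'

theorem card_box (n : ℕ) : (box n).card = Fintype.card (Perm (Fin n)) := by
  rw [box, card_piFinset, card_perm, Fintype.card_fin]
  simp only [card_range]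
  rw [Fin.prod_univ_eq_prod_range (fun i => n - i), ← Nat.descFactorial_eq_prod_range,
    Nat.descFactorial_self]

theorem sum_code {n : ℕ} (φ : (Fin n → ℕ) → ℝ) :
    ∑ x : Perm (Fin n), φ (code x) = ∑ c ∈ box n, φ c := by
  rw [← sum_image (s := univ) (g := code) (f := φ) code_inj.injOn]
  refine sum_congr (eq_of_subset_of_card_le (fun c hc => ?_) ?_) fun _ _ => rfl
  · obtain ⟨x, -, rfl⟩ := mem_image.1 hc
    exact mem_piFinset.2 fun i => mem_range.2 (code_lt x i)
  · rw [card_image_of_injective _ code_inj, card_box, card_univ]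

theorem code_swap {n : ℕ} (x : Perm (Fin n)) (i j : Fin n) (h : j.val = i.val + 1) (h' : x i < x j) :
    code x i ≤ code x j ∧ code (x * swap i j) i = code x j + 1 ∧ code (x * swap i j) j = code x i ∧
      ∀ k, k ≠ i → k ≠ j → code (x * swap i j) k = code x k := by
  have s : ∀ k, (swap i j k).val = if k.val = i.val then j.val else if k.val = j.val then i.val
      else k.val := fun k => by
    simp only [swap_apply_def, Fin.ext_iff]
    split_ifs <;> rfl
  refine ⟨card_le_card fun k hk => ?_, ?_, ?_, fun a h1 h2 => ?_⟩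
  · simp only [mem_filter, mem_univ, true_and] at hk ⊢
    refine ⟨lt_of_le_of_ne (by rw [Fin.le_def]; have := Fin.lt_def.1 hk.1; omega) ?_,
      hk.2.trans h'⟩
    rintro rfl
    exact lt_asymm h' hk.2
  · rw [code_mul, code, ← card_insert_of_notMem (a := i) (fun g => by
      have := Fin.lt_def.1 (mem_filter.1 g).2.1; omega)]
    congr 1
    ext k
    rw [mem_insert, mem_filter, mem_filter]
    simp only [mem_univ, true_and, symm_swap, swap_apply_left]
    by_cases c : k = i
    · simp [c, h', Fin.lt_def (a := i), h]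
    · simp only [c, false_or]
      refine and_congr_left fun _ => ?_
      rw [Fin.lt_def, Fin.lt_def, s]
      rw [Fin.ext_iff] at c
      split_ifs <;> omega
  · rw [code_mul, code]
    congr 1
    ext k
    rw [mem_filter, mem_filter]
    simp only [mem_univ, true_and, symm_swap, swap_apply_right]
    refine and_congr_left fun g => ?_
    have c1 : k ≠ i := by rintro rfl; exact lt_irrefl _ g
    have c2 : k ≠ j := by rintro rfl; exact lt_asymm h' g
    rw [Fin.lt_def, Fin.lt_def, s]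
    rw [Ne, Fin.ext_iff] at c1 c2
    split_ifs <;> omega
  · rw [code_mul, code, swap_apply_of_ne_of_ne h1 h2]
    congr 1
    ext k
    rw [mem_filter, mem_filter]
    simp only [mem_univ, true_and, symm_swap]
    refine and_congr_left fun _ => ?_
    rw [Fin.lt_def, Fin.lt_def, s]
    rw [Ne, Fin.ext_iff] at h1 h2
    split_ifs <;> omega

/-- signed weight of the edge at position `i` -/
def gg {m : ℕ} (i : Fin m) (c : Fin (m + 1) → ℕ) : ℝ :=
  ((i : ℝ) + 1) * (2 * ((c i.succ : ℝ) - c i.castSucc) + 1)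

/-- edge weights -/
noncomputable def wt {m : ℕ} (x y : Perm (Fin (m + 1))) : ℝ :=
  ∑ i : Fin m, if y = x * swap i.castSucc i.succ then max (gg i (code x)) 0 else 0

theorem gg_swap {m : ℕ} (x : Perm (Fin (m + 1))) (i : Fin m) :
    gg i (code (x * swap i.castSucc i.succ)) = - gg i (code x) ∧ (0 < gg i (code x) →
      ∑ k, code (x * swap i.castSucc i.succ) k = ∑ k, code x k + 1) := by
  have hne : i.castSucc ≠ i.succ := Fin.castSucc_lt_succ.ne
  rcases lt_or_gt_of_ne (x.injective.ne hne) with c | c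
  · obtain ⟨-, a1, a2, a3⟩ := code_swap x i.castSucc i.succ rfl c
    refine ⟨by rw [gg, gg, a1, a2]; push_cast; ring, fun _ => ?_⟩
    rw [← add_sum_erase _ _ (mem_univ i.castSucc), ← add_sum_erase _ (code x) (mem_univ i.castSucc),
      ← add_sum_erase _ _ (mem_erase.2 ⟨hne.symm, mem_univ _⟩),
      ← add_sum_erase _ (code x) (mem_erase.2 ⟨hne.symm, mem_univ _⟩), a1, a2,
      sum_congr rfl fun k hk => a3 k (mem_erase.1 (mem_erase.1 hk).2).1 (mem_erase.1 hk).1]
    ring
  · obtain ⟨a0, a1, a2, -⟩ := code_swap (x * swap i.castSucc i.succ) i.castSucc i.succ rfl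
      (by simpa using c)
    rw [mul_swap_mul_self] at a1 a2
    refine ⟨by rw [gg, gg, a1, a2]; push_cast; ring, fun h => absurd h (not_lt.2 ?_)⟩
    have : ((code (x * swap i.castSucc i.succ) i.castSucc : ℕ) : ℝ) ≤
      (code (x * swap i.castSucc i.succ) i.succ : ℕ) := by exact_mod_cast a0
    rw [gg, a1, a2]
    push_cast
    exact mul_nonpos_of_nonneg_of_nonpos (by positivity) (by linarith)

theorem wt_nonneg {m : ℕ} (x y : Perm (Fin (m + 1))) : 0 ≤ wt x y :=
  sum_nonneg fun i _ => by split_ifs; exacts [le_max_right _ _, le_rfl]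

theorem wt_ne {m : ℕ} (x y : Perm (Fin (m + 1))) (h : wt x y ≠ 0) :
    (∃ i : Fin m, y = x * swap i.castSucc i.succ) ∧ ∑ k, code y k = ∑ k, code x k + 1 := by
  obtain ⟨i, -, hi⟩ := exists_ne_zero_of_sum_ne_zero h
  split_ifs at hi with c
  · refine ⟨⟨i, c⟩, c ▸ (gg_swap x i).2 ?_⟩
    by_contra hc
    exact hi (max_eq_right (not_lt.1 hc))
  · exact absurd rfl hi

theorem out_wt {m : ℕ} (x : Perm (Fin (m + 1))) : out wt x = ∑ i, max (gg i (code x)) 0 := by
  simp only [out, wt]
  rw [sum_comm]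
  simp

theorem inn_wt {m : ℕ} (y : Perm (Fin (m + 1))) : inn wt y = ∑ i, max (- gg i (code y)) 0 := by
  simp only [inn, wt]
  rw [sum_comm]
  refine sum_congr rfl fun i _ => ?_
  rw [sum_eq_single (y * swap i.castSucc i.succ) (fun x _ h => if_neg fun e => h (by simp [e]))
    (by simp), if_pos (by simp), (gg_swap y i).1]

theorem sum_gg {m : ℕ} (c : Fin (m + 1) → ℕ) (h : c (Fin.last m) = 0) :
    ∑ i, gg i c = ((m + 1).choose 2 : ℕ) - 2 * ((∑ k, c k : ℕ) : ℝ) := by
  have a1 := Fin.sum_univ_succ fun k : Fin (m + 1) => ((k : ℕ) : ℝ) * c k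
  have a2 := Fin.sum_univ_castSucc fun k : Fin (m + 1) => ((k : ℕ) : ℝ) * c k
  have a3 := Fin.sum_univ_castSucc fun k : Fin (m + 1) => (c k : ℝ)
  have a4 := sum_lin 0 m
  rw [← Fin.sum_univ_eq_sum_range (fun a => (0 : ℝ) - 2 * a)] at a4
  have e : ∑ i, gg i c = ∑ i : Fin m, (2 * (((i.succ : ℕ) : ℝ) * c i.succ)
      + (-2) * (((i.castSucc : ℕ) : ℝ) * c i.castSucc) + (-2) * (c i.castSucc : ℝ)
      + (-1 / 2) * (0 - 2 * ((i : ℕ) : ℝ)) + 1) :=
    sum_congr rfl fun i _ => by simp only [gg, Fin.val_succ, Fin.val_castSucc]; push_cast; ring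
  simp only [sum_add_distrib, ← mul_sum, a4, sum_const, card_univ, Fintype.card_fin,
    nsmul_eq_mul] at e
  simp only [h, Fin.val_zero, Nat.cast_zero, zero_mul, mul_zero, add_zero, zero_add] at a1 a2 a3
  rw [Nat.cast_choose_two, e, ← a1, ← a2, ← a3]
  push_cast
  ring

theorem gg_abs {m : ℕ} (c : Fin (m + 1) → ℕ) (hc : c ∈ box (m + 1)) (i : Fin m) :
    |gg i c| ≤ 2 * (m + 1 : ℝ) ^ 2 := by
  have b : ∀ k, (c k : ℝ) ≤ m := fun k => by
    have := mem_range.1 (mem_piFinset.1 hc k)
    exact Nat.cast_le.2 (by omega)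
  have i0 : ((i : ℕ) : ℝ) ≤ m := Nat.cast_le.2 i.2.le
  rw [gg, abs_mul, abs_of_nonneg (by positivity), sq, mul_left_comm]
  refine mul_le_mul (by linarith) (abs_le.2 ⟨?_, ?_⟩) (abs_nonneg _) (by positivity) <;>
    linarith [b i.succ, b i.castSucc, Nat.cast_nonneg (α := ℝ) (c i.succ),
      Nat.cast_nonneg (α := ℝ) (c i.castSucc)]

theorem gg_diff {m : ℕ} (c : Fin (m + 1) → ℕ) (hc : c ∈ box (m + 1)) (k : Fin (m + 1)) (a : ℕ)
    (ha : a ∈ range (m + 1 - k)) :
    ∑ i, |gg i (Function.update c k a) - gg i c| ≤ 4 * (m + 1 : ℝ) ^ 2 := by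
  obtain ⟨δ, hδ⟩ : ∃ δ : Fin (m + 1) → ℝ, ∀ j, δ j = |(Function.update c k a j : ℝ) - c j| :=
    ⟨_, fun _ => rfl⟩
  have d0 : ∀ j, 0 ≤ δ j := fun j => hδ j ▸ abs_nonneg _
  have d1 : ∑ j, δ j ≤ m + 1 := by
    rw [sum_eq_single k (fun j _ h => by simp [hδ, h]) (by simp), hδ, Function.update_self]
    have b1 : c k ≤ m + 1 := by have := mem_range.1 (mem_piFinset.1 hc k); omega
    have b2 : a ≤ m + 1 := by have := mem_range.1 ha; omega
    have b1 : (c k : ℝ) ≤ m + 1 := by exact_mod_cast b1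
    have b2 : (a : ℝ) ≤ m + 1 := by exact_mod_cast b2
    refine abs_le.2 ⟨?_, ?_⟩ <;>
      linarith [Nat.cast_nonneg (α := ℝ) (c k), Nat.cast_nonneg (α := ℝ) a]
  have a1 := Fin.sum_univ_succ δ
  have a2 := Fin.sum_univ_castSucc δ
  have a3 : ∑ i, |gg i (Function.update c k a) - gg i c|
      ≤ ∑ i : Fin m, 2 * (m + 1 : ℝ) * (δ i.succ + δ i.castSucc) := sum_le_sum fun i _ => by
    have i0 : ((i : ℕ) : ℝ) ≤ m := Nat.cast_le.2 i.2.le
    rw [gg, gg, ← mul_sub, abs_mul, abs_of_nonneg (by positivity), mul_comm 2 (m + 1 : ℝ),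
      mul_assoc, hδ, hδ]
    refine mul_le_mul (by linarith) (abs_le.2 ⟨?_, ?_⟩) (abs_nonneg _) (by positivity) <;>
    linarith [le_abs_self ((Function.update c k a i.succ : ℝ) - c i.succ),
      neg_abs_le ((Function.update c k a i.succ : ℝ) - c i.succ),
      le_abs_self ((Function.update c k a i.castSucc : ℝ) - c i.castSucc),
      neg_abs_le ((Function.update c k a i.castSucc : ℝ) - c i.castSucc)]
  rw [← mul_sum, sum_add_distrib] at a3
  refine a3.trans ((mul_le_mul_of_nonneg_left (show _ ≤ 2 * (m + 1 : ℝ) by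
    linarith [d0 0, d0 (Fin.last m)]) (by positivity)).trans (le_of_eq (by ring)))

theorem sum_top (n : ℕ) : ∑ i : Fin n, (n - 1 - i) = n.choose 2 := by
  rw [Fin.sum_univ_eq_sum_range (fun i => n - 1 - i), sum_range_reflect (fun i => i),
    sum_range_id, Nat.choose_two_right]

theorem box_le {n : ℕ} (c : Fin n → ℕ) (hc : c ∈ box n) :
    ∑ i : Fin n, (n - 1 - i - c i) + ∑ i, c i = n.choose 2 := by
  rw [← sum_add_distrib, ← sum_top]
  refine sum_congr rfl fun i _ => ?_
  have := mem_range.1 (mem_piFinset.1 hc i)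
  omega

theorem code_mem {n : ℕ} (x : Perm (Fin n)) : code x ∈ box n :=
  mem_piFinset.2 fun i => mem_range.2 (code_lt x i)

theorem nn_sym (n k : ℕ) (hk : k ≤ n.choose 2) :
    nn (fun x : Perm (Fin n) => ∑ i, code x i) (n.choose 2 - k)
      = nn (fun x : Perm (Fin n) => ∑ i, code x i) k := by
  simp only [nn, card_filter, Nat.cast_sum]
  rw [sum_code fun c => ((if ∑ i, c i = n.choose 2 - k then 1 else 0 : ℕ) : ℝ),
    sum_code fun c => ((if ∑ i, c i = k then 1 else 0 : ℕ) : ℝ)]
  have m : ∀ c ∈ box n, (fun i : Fin n => n - 1 - i - c i) ∈ box n := fun c _ =>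
    mem_piFinset.2 fun i => mem_range.2 (by omega)
  have m2 : ∀ c ∈ box n, (fun i : Fin n => n - 1 - i - (n - 1 - i - c i)) = c := fun c hc =>
    funext fun i => by have := mem_range.1 (mem_piFinset.1 hc i); omega
  refine sum_nbij' _ _ m m m2 m2 fun c hc => ?_
  have := box_le c hc
  simp only
  congr 2
  apply propext
  omega

theorem var_lb (n : ℕ) (hn : 3 ≤ n) : (n : ℝ) ^ 3 / 18 * Fintype.card (Perm (Fin n))
    ≤ ∑ x : Perm (Fin n), ((n.choose 2 : ℝ) - 2 * (∑ i, code x i : ℕ)) ^ 2 := by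
  have c : ∀ i : Fin n, ((n - i : ℕ) : ℝ) = n - i := fun i => Nat.cast_sub i.2.le
  have := var_sum n (fun i : Fin n => range (n - i)) (fun i a => ((n : ℝ) - i - 1) - 2 * a)
    (fun i => (2 * ((n : ℝ) - 1) - 2 * i) ^ 2 / 12) (fun i => by rw [sum_lin, c]; ring)
    (fun i => by
      have : (1 : ℝ) ≤ ((n - i : ℕ) : ℝ) := Nat.one_le_cast.2 (by omega)
      rw [sum_sq', card_range, c] at *
      nlinarith)
  rw [sum_code fun c => ((n.choose 2 : ℝ) - 2 * (∑ i, c i : ℕ)) ^ 2, ← card_box]
  refine le_trans (mul_le_mul_of_nonneg_right ?_ (Nat.cast_nonneg _)) (this.trans (le_of_eq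
    (sum_congr rfl fun x _ => ?_)))
  · have : (3 : ℝ) ≤ n := by exact_mod_cast hn
    rw [← sum_div, Fin.sum_univ_eq_sum_range (fun i => (2 * ((n : ℝ) - 1) - 2 * i) ^ 2), sum_sq']
    nlinarith
  · rw [sum_sub_distrib, ← sum_top, ← mul_sum, Nat.cast_sum, Nat.cast_sum]
    congr 2
    refine sum_congr rfl fun i _ => ?_
    rw [Nat.cast_sub (by omega), Nat.cast_sub (by omega)]
    push_cast
    ring

end Pool.Agent.Lib.MP_4ca2df_co
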